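import Mathlib

open ModularForm UpperHalfPlane MatrixGroups

namespace Pool.Agent.MP_dd1803_nt

/-- The modular `j`-function on the upper half plane, `j = E₄ ^ 3 / Δ` where `Δ = η ^ 24`. -/
noncomputable def jf (τ : ℍ) : ℂ := E₄ τ ^ 3 / ModularForm.discriminant τ

/-- `MRel N x y` holds if and only if `Φ_N(x, y) = 0`, where `Φ_N` is the classical modular
polynomial of level `N`: there are a point `τ` of the upper half plane and a primitive integral
`2 × 2`-matrix of determinant `N`, mapping `τ` to `σ`, with `y = j(τ)` and `x = j(σ)`. -/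
def MRel (N : ℕ) (x y : ℂ) : Prop :=
  ∃ (τ σ : ℍ) (a b c d : ℤ), a * d - b * c = N ∧ (∀ m : ℤ, m ∣ a → m ∣ b → m ∣ c → m ∣ d → m ∣ 1) ∧
    (σ : ℂ) * (c * τ + d) = a * τ + b ∧ jf τ = y ∧ jf σ = x

end Pool.Agent.MP_dd1803_nt
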