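import Mathlib
import Pool.Agent.MP_dd1803_nt.Y.JDef

/-!
# Injectivity of the modular `j`-function modulo `SL(2, ℤ)`
-/

open ModularForm UpperHalfPlane MatrixGroups EisensteinSeries Filter Topology

namespace Pool.Agent.MP_dd1803_nt

open PeriodPair

/-! ### Algebra: equal `j` gives a scaling factor -/

lemma exists_scale {a b a' b' D D' : ℂ} (hD : 1728 * D = a ^ 3 - b ^ 2)
    (hD' : 1728 * D' = a' ^ 3 - b' ^ 2) (h0 : D ≠ 0) (h0' : D' ≠ 0)
    (h : a ^ 3 / D = a' ^ 3 / D') :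
    ∃ c : ℂ, c ≠ 0 ∧ a' = c ^ 4 * a ∧ b' = c ^ 6 * b := by
  obtain ⟨μ, hμ⟩ : ∃ μ : ℂ, μ ^ 12 = D' / D := IsAlgClosed.exists_pow_nat_eq _ (by norm_num)
  have hμ0 : μ ≠ 0 := by
    rintro rfl
    rw [zero_pow (by norm_num)] at hμ
    exact (div_ne_zero h0' h0) hμ.symm
  have e1 : a' ^ 3 = μ ^ 12 * a ^ 3 := by
    rw [hμ]; rw [div_eq_div_iff h0 h0'] at h; field_simp; linear_combination -h
  have e2 : b' ^ 2 = μ ^ 12 * b ^ 2 := by
    have hb : b ^ 2 = a ^ 3 - 1728 * D := by linear_combination hD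
    have hb' : b' ^ 2 = a' ^ 3 - 1728 * D' := by linear_combination hD'
    rw [hb, hb', mul_sub, ← e1, hμ]; field_simp
  obtain ⟨ω, hω, hω'⟩ : ∃ ω : ℂ, ω ^ 3 = 1 ∧ a' = ω * (μ ^ 4 * a) := by
    by_cases ha : a = 0
    · refine ⟨1, by norm_num, ?_⟩
      subst ha
      have : a' ^ 3 = 0 := by rw [e1]; ring
      rw [pow_eq_zero_iff (by norm_num)] at this
      rw [this]; ring
    · refine ⟨a' / (μ ^ 4 * a), ?_, ?_⟩
      · rw [div_pow, e1]; field_simp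
      · field_simp
  obtain ⟨ε, hε, hε'⟩ : ∃ ε : ℂ, ε ^ 2 = 1 ∧ b' = ε * (μ ^ 6 * b) := by
    by_cases hb : b = 0
    · refine ⟨1, by norm_num, ?_⟩
      subst hb
      have : b' ^ 2 = 0 := by rw [e2]; ring
      rw [pow_eq_zero_iff (by norm_num)] at this
      rw [this]; ring
    · refine ⟨b' / (μ ^ 6 * b), ?_, ?_⟩
      · rw [div_pow, e2]; field_simp
      · field_simp
  obtain ⟨i, hi, hi4⟩ : ∃ i : ℂ, i ^ 6 = ε ∧ i ^ 4 = 1 := by
    have : (ε - 1) * (ε + 1) = 0 := by linear_combination hε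
    rcases mul_eq_zero.mp this with h | h
    · exact ⟨1, by rw [sub_eq_zero.mp h]; norm_num, by norm_num⟩
    · refine ⟨Complex.I, ?_, Complex.I_pow_four⟩
      have : Complex.I ^ 6 = (Complex.I ^ 2) ^ 3 := by ring
      rw [this, Complex.I_sq]; linear_combination -h
  refine ⟨ω * i * μ, ?_, ?_, ?_⟩
  · have hω0 : ω ≠ 0 := by rintro rfl; norm_num at hω
    have hi0 : i ≠ 0 := by rintro rfl; norm_num at hi4
    exact mul_ne_zero (mul_ne_zero hω0 hi0) hμ0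
  · rw [hω']
    have : (ω * i * μ) ^ 4 = ω * (ω ^ 3 * (i ^ 4 * μ ^ 4)) := by ring
    rw [this, hω, hi4]; ring
  · rw [hε', ← hi]
    have : (ω * i * μ) ^ 6 = (ω ^ 3) ^ 2 * (i ^ 6 * μ ^ 6) := by ring
    rw [this, hω]; ring

/-! ### Period pairs -/

/-- The period pair `(c τ, c)`. -/
noncomputable def pp (τ : ℍ) (c : ℂ) (hc : c ≠ 0) : PeriodPair where
  ω₁ := c * τ
  ω₂ := c
  indep := by
    rw [LinearIndependent.pair_iff]
    intro s t h
    have h1 : (s : ℂ) * τ + t = 0 := by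
      have : c * ((s : ℂ) * τ + t) = 0 := by
        simp only [Complex.real_smul] at h
        linear_combination h
      exact (mul_eq_zero.mp this).resolve_left hc
    have him := congrArg Complex.im h1
    simp at him
    have hs : s = 0 := by
      rcases him with h | h
      · exact h
      · exact absurd h τ.im_ne_zero
    have hre := congrArg Complex.re h1
    simp [hs] at hre
    exact ⟨hs, hre⟩

lemma G_pp (τ : ℍ) (c : ℂ) (hc : c ≠ 0) {k : ℕ} (hk : 3 ≤ k) :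
    (pp τ c hc).G k = (c ^ k)⁻¹ * (riemannZeta k * (2 * E hk τ)) := by
  have h1 : (pp τ c hc).G k = ∑' v : Fin 2 → ℤ, (c ^ k)⁻¹ * eisSummand k v τ := by
    rw [PeriodPair.G, ← (pp τ c hc).latticeEquivProd.symm.toEquiv.tsum_eq,
      ← (finTwoArrowEquiv ℤ).tsum_eq]
    refine tsum_congr fun v => ?_
    have := (pp τ c hc).latticeEquiv_symm_apply ((finTwoArrowEquiv ℤ) v)
    simp only [LinearEquiv.coe_toEquiv]
    rw [this]
    simp only [pp, finTwoArrowEquiv, eisSummand, zpow_neg, zpow_natCast]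
    rw [← mul_inv, ← mul_pow]
    congr 2
    simp
    ring
  rw [h1, tsum_mul_left, tsum_eisSummand_eq_riemannZeta_mul_eisensteinSeries hk]
  congr 2
  rw [show E hk τ = (1 / 2 : ℂ) • eisensteinSeriesSIF (N := 1) 0 k τ from rfl,
    eisensteinSeriesSIF_apply 0 k τ, smul_eq_mul]
  ring


/-! ### Uniqueness for the Weierstrass equation -/

/-- near `0` (outside `0`) the Weierstrass function is `1 / z ^ 2` plus the regular part. -/
lemma eventually_regular (L : PeriodPair) : ∀ᶠ z in 𝓝[≠] (0 : ℂ), z ≠ 0 ∧ z ∉ L.lattice ∧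
    ℘[L] z = ℘[L - (0 : ℂ)] z + 1 / z ^ 2 ∧
    ℘'[L] z = deriv ℘[L - (0 : ℂ)] z - 2 / z ^ 3 := by
  filter_upwards [self_mem_nhdsWithin, mem_nhdsWithin_of_mem_nhds
    (L.compl_lattice_sdiff_singleton_mem_nhds 0)] with z hz0 hz
  have hz0' : z ≠ 0 := hz0
  have hzL : z ∉ L.lattice := fun h => hz ⟨h, hz0'⟩
  refine ⟨hz0', hzL, ?_, ?_⟩
  · have := L.weierstrassPExcept_add 0 z
    simp only [Submodule.coe_zero, sub_zero] at this
    rw [← this]; simp
  · have := L.derivWeierstrassPExcept_sub 0 z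
    simp only [Submodule.coe_zero, sub_zero] at this
    rw [← this, L.eqOn_deriv_weierstrassPExcept_derivWeierstrassPExcept 0 hz]

/-- The regular part satisfies the rescaled differential equation. -/
lemma regular_ode (L : PeriodPair) : ∀ᶠ z in 𝓝[≠] (0 : ℂ),
    (z ^ 3 * deriv ℘[L - (0 : ℂ)] z - 2) ^ 2 = 4 * (z ^ 2 * ℘[L - (0 : ℂ)] z + 1) ^ 3
      - L.g₂ * (z ^ 6 * ℘[L - (0 : ℂ)] z + z ^ 4) - L.g₃ * z ^ 6 := by
  filter_upwards [eventually_regular L] with z hz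
  obtain ⟨hz0, hzL, h1, h2⟩ := hz
  have h := L.derivWeierstrassP_sq z hzL
  rw [h1, h2] at h
  have e1 : z ^ 3 * deriv ℘[L - (0 : ℂ)] z - 2
      = z ^ 3 * (deriv ℘[L - (0 : ℂ)] z - 2 / z ^ 3) := by field_simp
  have e2 : z ^ 2 * ℘[L - (0 : ℂ)] z + 1 = z ^ 2 * (℘[L - (0 : ℂ)] z + 1 / z ^ 2) := by
    field_simp
  have e3 : z ^ 6 * ℘[L - (0 : ℂ)] z + z ^ 4 = z ^ 6 * (℘[L - (0 : ℂ)] z + 1 / z ^ 2) := by
    field_simp
  rw [e1, e2, e3]
  linear_combination z ^ 6 * h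

lemma regular_unique (L L' : PeriodPair) (h2 : L.g₂ = L'.g₂) (h3 : L.g₃ = L'.g₃) :
    ∀ᶠ z in 𝓝 (0 : ℂ), ℘[L - (0 : ℂ)] z - ℘[L' - (0 : ℂ)] z = 0 := by
  by_contra hcon
  have ha : AnalyticAt ℂ ℘[L - (0 : ℂ)] 0 := L.analyticAt_weierstrassPExcept 0
  have ha' : AnalyticAt ℂ ℘[L' - (0 : ℂ)] 0 := L'.analyticAt_weierstrassPExcept 0
  have hu : AnalyticAt ℂ (fun z => ℘[L - (0 : ℂ)] z - ℘[L' - (0 : ℂ)] z) 0 := ha.sub ha'
  obtain ⟨n, g, hg, hg0, hev⟩ := hu.exists_eventuallyEq_pow_smul_nonzero_iff.mpr hcon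
  -- derivative of u
  have hder : ∀ᶠ z in 𝓝 (0 : ℂ), deriv ℘[L - (0 : ℂ)] z - deriv ℘[L' - (0 : ℂ)] z
      = n * z ^ (n - 1) * g z + z ^ n * deriv g z := by
    filter_upwards [hev.eventually_nhds, ha.eventually_analyticAt, ha'.eventually_analyticAt,
      hg.eventually_analyticAt] with z hz h1 h2 h3
    have e1 : deriv (fun z => ℘[L - (0 : ℂ)] z - ℘[L' - (0 : ℂ)] z) z
        = deriv ℘[L - (0 : ℂ)] z - deriv ℘[L' - (0 : ℂ)] z :=
      deriv_fun_sub h1.differentiableAt h2.differentiableAt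
    have e2 : (fun z => ℘[L - (0 : ℂ)] z - ℘[L' - (0 : ℂ)] z) =ᶠ[𝓝 z]
        fun z => z ^ n * g z := by
      filter_upwards [hz] with w hw
      rw [hw]; simp
    rw [← e1, e2.deriv_eq, deriv_fun_mul (by fun_prop) h3.differentiableAt]
    simp
  -- functional equation
  have key : ∀ᶠ z in 𝓝[≠] (0 : ℂ),
      (n * g z + z * deriv g z) * (z ^ 3 * (deriv ℘[L - (0 : ℂ)] z + deriv ℘[L' - (0 : ℂ)] z) - 4)
      = g z * (4 * ((z ^ 2 * ℘[L - (0 : ℂ)] z + 1) ^ 2 + (z ^ 2 * ℘[L - (0 : ℂ)] z + 1)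
          * (z ^ 2 * ℘[L' - (0 : ℂ)] z + 1) + (z ^ 2 * ℘[L' - (0 : ℂ)] z + 1) ^ 2)
          - L.g₂ * z ^ 4) := by
    filter_upwards [regular_ode L, regular_ode L', self_mem_nhdsWithin,
      mem_nhdsWithin_of_mem_nhds hev, mem_nhdsWithin_of_mem_nhds hder] with z o1 o2 hz0 hz hd
    have hz0' : z ≠ 0 := hz0
    have hz' : ℘[L - (0 : ℂ)] z - ℘[L' - (0 : ℂ)] z = z ^ n * g z := by
      simpa using hz
    have hd' : z * (deriv ℘[L - (0 : ℂ)] z - deriv ℘[L' - (0 : ℂ)] z)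
        = z ^ n * (n * g z + z * deriv g z) := by
      rw [hd]
      rcases Nat.eq_zero_or_pos n with h0 | hpos
      · subst h0; simp
      · have : z ^ n = z * z ^ (n - 1) := by
          rw [← pow_succ']; congr 1; omega
        rw [this]; ring
    rw [← h2, ← h3] at o2
    have hzn : z ^ (n + 2) ≠ 0 := pow_ne_zero _ hz0'
    apply mul_left_cancel₀ hzn
    set F := deriv ℘[L - (0 : ℂ)] z
    set F' := deriv ℘[L' - (0 : ℂ)] z
    set f := ℘[L - (0 : ℂ)] z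
    set f' := ℘[L' - (0 : ℂ)] z
    have l1 : z ^ (n + 2) * ((n * g z + z * deriv g z) * (z ^ 3 * (F + F') - 4))
        = z ^ 3 * (F - F') * (z ^ 3 * (F + F') - 4) := by
      have : z ^ 3 * (F - F') = z ^ 2 * (z * (F - F')) := by ring
      rw [this, hd']; ring
    have l2 : z ^ (n + 2) * (g z * (4 * ((z ^ 2 * f + 1) ^ 2 + (z ^ 2 * f + 1)
          * (z ^ 2 * f' + 1) + (z ^ 2 * f' + 1) ^ 2) - L.g₂ * z ^ 4))
        = z ^ 2 * (f - f') * (4 * ((z ^ 2 * f + 1) ^ 2 + (z ^ 2 * f + 1)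
          * (z ^ 2 * f' + 1) + (z ^ 2 * f' + 1) ^ 2) - L.g₂ * z ^ 4) := by
      rw [hz']; ring
    rw [l1, l2]
    linear_combination o1 - o2
  -- limits at zero
  have hda : AnalyticAt ℂ (deriv ℘[L - (0 : ℂ)]) 0 := ha.deriv
  have hda' : AnalyticAt ℂ (deriv ℘[L' - (0 : ℂ)]) 0 := ha'.deriv
  have hdg : AnalyticAt ℂ (deriv g) 0 := hg.deriv
  have c1 := ha.continuousAt
  have c2 := ha'.continuousAt
  have c3 := hda.continuousAt
  have c4 := hda'.continuousAt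
  have c5 := hg.continuousAt
  have c6 := hdg.continuousAt
  have t1 : ContinuousAt (fun z => (n * g z + z * deriv g z) *
      (z ^ 3 * (deriv ℘[L - (0 : ℂ)] z + deriv ℘[L' - (0 : ℂ)] z) - 4)) 0 := by fun_prop
  have t2 : ContinuousAt (fun z => g z * (4 * ((z ^ 2 * ℘[L - (0 : ℂ)] z + 1) ^ 2 +
      (z ^ 2 * ℘[L - (0 : ℂ)] z + 1)
          * (z ^ 2 * ℘[L' - (0 : ℂ)] z + 1) + (z ^ 2 * ℘[L' - (0 : ℂ)] z + 1) ^ 2)
          - L.g₂ * z ^ 4)) 0 := by fun_prop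
  have t1' := t1.tendsto.mono_left (nhdsWithin_le_nhds (s := {0}ᶜ))
  have t2' := t2.tendsto.mono_left (nhdsWithin_le_nhds (s := {0}ᶜ))
  have := tendsto_nhds_unique (t1'.congr' key) t2'
  simp at this
  have h12 : g 0 * (4 * n + 12 : ℂ) = 0 := by linear_combination -this
  rcases mul_eq_zero.mp h12 with h | h
  · exact hg0 h
  · have : (4 * (n : ℂ) + 12) = ((4 * n + 12 : ℕ) : ℂ) := by push_cast; ring
    rw [this] at h
    norm_cast at h

lemma weierstrassP_eventuallyEq (L L' : PeriodPair) (h2 : L.g₂ = L'.g₂) (h3 : L.g₃ = L'.g₃) :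
    ∀ᶠ z in 𝓝[≠] (0 : ℂ), ℘[L] z = ℘[L'] z := by
  filter_upwards [eventually_regular L, eventually_regular L',
    mem_nhdsWithin_of_mem_nhds (regular_unique L L' h2 h3)] with z h1 h2 h3
  rw [h1.2.2.1, h2.2.2.1]
  have : ℘[L - (0 : ℂ)] z - ℘[L' - (0 : ℂ)] z = 0 := h3
  linear_combination this

lemma weierstrassP_eqOn (L L' : PeriodPair) (h2 : L.g₂ = L'.g₂) (h3 : L.g₃ = L'.g₃) :
    Set.EqOn ℘[L] ℘[L'] ((L.lattice : Set ℂ) ∪ L'.lattice)ᶜ := by
  have hev : ∀ᶠ z in 𝓝[≠] (0 : ℂ), z ≠ 0 ∧ z ∉ L.lattice ∧ z ∉ L'.lattice ∧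
      ℘[L] =ᶠ[𝓝 z] ℘[L'] := by
    have h := eventually_eventually_nhdsWithin.mpr (weierstrassP_eventuallyEq L L' h2 h3)
    filter_upwards [h, eventually_regular L, eventually_regular L'] with z hz h1 h2
    refine ⟨h1.1, h1.2.1, h2.2.1, ?_⟩
    rwa [IsOpen.nhdsWithin_eq isOpen_compl_singleton h1.1] at hz
  obtain ⟨z₀, -, hz1, hz2, hz3⟩ := hev.exists
  have hopen : ((L.lattice : Set ℂ) ∪ L'.lattice)ᶜ = (L.lattice : Set ℂ)ᶜ ∩ (L'.lattice : Set ℂ)ᶜ :=
    Set.compl_union _ _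
  refine AnalyticOnNhd.eqOn_of_preconnected_of_eventuallyEq
    (L.analyticOnNhd_weierstrassP.mono ?_) (L'.analyticOnNhd_weierstrassP.mono ?_) ?_
    (z₀ := z₀) ?_ hz3
  · rw [hopen]; exact Set.inter_subset_left
  · rw [hopen]; exact Set.inter_subset_right
  · refine (Set.Countable.isConnected_compl_of_one_lt_rank (by simp) ?_).isPreconnected
    exact (Set.Countable.union (countable_of_Lindelof_of_discrete (X := L.lattice))
      (countable_of_Lindelof_of_discrete (X := L'.lattice)))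
  · rw [hopen]; exact ⟨hz1, hz2⟩

lemma lattice_le (L L' : PeriodPair) (h2 : L.g₂ = L'.g₂) (h3 : L.g₃ = L'.g₃) :
    L.lattice ≤ L'.lattice := by
  intro l hl
  by_contra hl'
  have h := weierstrassP_eqOn L L' h2 h3
  have hev : ℘[L] =ᶠ[𝓝[≠] l] ℘[L'] := by
    filter_upwards [self_mem_nhdsWithin, mem_nhdsWithin_of_mem_nhds
      (L.compl_lattice_sdiff_singleton_mem_nhds l), mem_nhdsWithin_of_mem_nhds
      (L'.isClosed_lattice.isOpen_compl.mem_nhds hl')] with z hz0 hz hz'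
    apply h
    rintro (h | h)
    · exact hz ⟨h, hz0⟩
    · exact hz' h
  have h1 := L.order_weierstrassP l hl
  rw [meromorphicOrderAt_congr hev] at h1
  have h4 := (L'.analyticOnNhd_weierstrassP l hl').meromorphicOrderAt_nonneg
  rw [h1] at h4
  exact absurd h4 (by decide)

lemma lattice_eq (L L' : PeriodPair) (h2 : L.g₂ = L'.g₂) (h3 : L.g₃ = L'.g₃) :
    L.lattice = L'.lattice :=
  le_antisymm (lattice_le L L' h2 h3) (lattice_le L' L h2.symm h3.symm)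

/-! ### The theorem -/

lemma linInd_tau (τ : ℍ) {m n : ℤ} (h : (m : ℂ) * τ + n = 0) : m = 0 ∧ n = 0 := by
  have him := congrArg Complex.im h
  simp at him
  have hm : m = 0 := by
    rcases him with h | h
    · exact_mod_cast h
    · exact absurd h τ.im_ne_zero
  subst hm
  simp at h
  exact ⟨rfl, h⟩

/-- **Injectivity of `j` modulo `SL(2, ℤ)`.** -/
theorem jf_inj {τ τ' : ℍ} (h : jf τ = jf τ') : ∃ γ : SL(2, ℤ), γ • τ = τ' := by
  have hD : 1728 * discriminant τ = E₄ τ ^ 3 - E₆ τ ^ 2 := by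
    rw [discriminant_eq_E₄_cube_sub_E₆_sq]; ring
  have hD' : 1728 * discriminant τ' = E₄ τ' ^ 3 - E₆ τ' ^ 2 := by
    rw [discriminant_eq_E₄_cube_sub_E₆_sq]; ring
  obtain ⟨c, hc, h4, h6⟩ := exists_scale hD hD' (discriminant_ne_zero τ) (discriminant_ne_zero τ') h
  set L := pp τ c⁻¹ (inv_ne_zero hc) with hL
  set L' := pp τ' 1 one_ne_zero with hL'
  have hg2 : L.g₂ = L'.g₂ := by
    simp only [PeriodPair.g₂]
    rw [hL, hL', G_pp τ _ _ (by norm_num : 3 ≤ 4), G_pp τ' _ _ (by norm_num : 3 ≤ 4)]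
    rw [show E (by norm_num : 3 ≤ 4) τ' = c ^ 4 * E (by norm_num : 3 ≤ 4) τ from h4]
    simp
    ring
  have hg3 : L.g₃ = L'.g₃ := by
    simp only [PeriodPair.g₃]
    rw [hL, hL', G_pp τ _ _ (by norm_num : 3 ≤ 6), G_pp τ' _ _ (by norm_num : 3 ≤ 6)]
    rw [show E (by norm_num : 3 ≤ 6) τ' = c ^ 6 * E (by norm_num : 3 ≤ 6) τ from h6]
    simp
    ring
  have hlat := lattice_eq L L' hg2 hg3
  have m1 : L'.ω₁ ∈ L.lattice := hlat ▸ L'.ω₁_mem_lattice
  have m2 : L'.ω₂ ∈ L.lattice := hlat ▸ L'.ω₂_mem_lattice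
  have m3 : L.ω₁ ∈ L'.lattice := hlat ▸ L.ω₁_mem_lattice
  have m4 : L.ω₂ ∈ L'.lattice := hlat ▸ L.ω₂_mem_lattice
  obtain ⟨a, b, hab⟩ := mem_lattice.mp m1
  obtain ⟨c', d, hcd⟩ := mem_lattice.mp m2
  obtain ⟨p, q, hpq⟩ := mem_lattice.mp m3
  obtain ⟨r, s, hrs⟩ := mem_lattice.mp m4
  simp only [hL, hL', pp, one_mul] at hab hcd hpq hrs
  -- hab : a (c⁻¹ τ) + b c⁻¹ = τ',  hcd : c' (c⁻¹ τ) + d c⁻¹ = 1
  -- hpq : p τ' + q 1 = c⁻¹ τ, hrs : r τ' + s 1 = c⁻¹
  have e1 : ((a * p + b * r - 1 : ℤ) : ℂ) * τ' + ((a * q + b * s : ℤ) : ℂ) = 0 := by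
    push_cast
    rw [← hpq, ← hrs] at hab
    linear_combination hab
  have e2 : ((c' * p + d * r : ℤ) : ℂ) * τ' + ((c' * q + d * s - 1 : ℤ) : ℂ) = 0 := by
    push_cast
    rw [← hpq, ← hrs] at hcd
    linear_combination hcd
  obtain ⟨f1, f2⟩ := linInd_tau τ' e1
  obtain ⟨f3, f4⟩ := linInd_tau τ' e2
  have hdet : (a * d - b * c') * (p * s - q * r) = 1 := by
    have g1 : a * p + b * r = 1 := by linarith
    have g4 : c' * q + d * s = 1 := by linarith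
    linear_combination (c' * q + d * s) * g1 + g4 - (c' * p + d * r) * f2
  have hcd' : (c' : ℂ) * τ + d = c := by
    have : c * ((c' : ℂ) * (c⁻¹ * τ) + d * c⁻¹) = c * 1 := by rw [hcd]
    field_simp at this
    linear_combination this
  have hab' : (a : ℂ) * τ + b = c * τ' := by
    have : c * ((a : ℂ) * (c⁻¹ * τ) + b * c⁻¹) = c * τ' := by rw [hab]
    field_simp at this
    linear_combination this
  -- imaginary parts
  have hpos : 0 < a * d - b * c' := by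
    have him : ((a * d - b * c' : ℤ) : ℝ) * τ.im = Complex.normSq c * τ'.im := by
      have e : ((a : ℂ) * τ + b) * (starRingEnd ℂ) ((c' : ℂ) * τ + d)
          = (Complex.normSq c : ℂ) * τ' := by
        rw [hab', hcd', Complex.normSq_eq_conj_mul_self]; ring
      have := congrArg Complex.im e
      simp at this
      push_cast
      linear_combination this
    have h1 : 0 < ((a * d - b * c' : ℤ) : ℝ) * τ.im := by
      rw [him]; exact mul_pos (Complex.normSq_pos.mpr hc) τ'.im_pos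
    have h2 := (mul_pos_iff_of_pos_right τ.im_pos).mp h1
    exact_mod_cast h2
  have hone : a * d - b * c' = 1 := by
    rcases Int.mul_eq_one_iff_eq_one_or_neg_one.mp hdet with ⟨h, -⟩ | ⟨h, -⟩
    · exact h
    · omega
  have hdetM : (!![a, b; c', d] : Matrix (Fin 2) (Fin 2) ℤ).det = 1 := by
    rw [Matrix.det_fin_two_of]; exact hone
  let γ : SL(2, ℤ) := ⟨!![a, b; c', d], hdetM⟩
  refine ⟨γ, ?_⟩
  apply UpperHalfPlane.ext
  rw [UpperHalfPlane.coe_specialLinearGroup_apply]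
  simp [γ]
  rw [hab', hcd']
  field_simp

end Pool.Agent.MP_dd1803_nt
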