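import Mathlib
import Pool.Agent.MP_dd1803_nt.Y.JDef

open ModularForm UpperHalfPlane MatrixGroups Matrix

namespace Pool.Agent.MP_dd1803_nt

section PD

/-- Integral matrices with positive determinant. -/
def PD : Submonoid (Matrix (Fin 2) (Fin 2) ℤ) where
  carrier := {g | 0 < g.det}
  one_mem' := by simp
  mul_mem' := by
    intro a b ha hb
    have ha' : 0 < a.det := ha
    have hb' : 0 < b.det := hb
    show 0 < (a * b).det
    rw [Matrix.det_mul]
    positivity

theorem pd_pos (g : PD) : 0 < g.1.det := g.2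

theorem pd_det_real (g : PD) : (g.1.map (fun x : ℤ => (x : ℝ))).det = ((g.1.det : ℤ) : ℝ) := by
  rw [Matrix.det_fin_two, Matrix.det_fin_two]
  simp

/-- The real invertible matrix. -/
noncomputable def PD.gl : PD →* GL (Fin 2) ℝ where
  toFun g := Matrix.GeneralLinearGroup.mkOfDetNeZero (g.1.map (fun x : ℤ => (x : ℝ))) (by
    rw [pd_det_real]
    exact_mod_cast (pd_pos g).ne')
  map_one' := by
    ext i j
    simp [Matrix.GeneralLinearGroup.mkOfDetNeZero, Matrix.one_apply]
  map_mul' g h := by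
    ext i j
    simp [Matrix.GeneralLinearGroup.mkOfDetNeZero, Matrix.mul_apply]

theorem PD.gl_apply (g : PD) (i j : Fin 2) : (PD.gl g) i j = (g.1 i j : ℝ) := rfl

theorem PD.gl_det (g : PD) : (PD.gl g).det.val = ((g.1.det : ℤ) : ℝ) := by
  rw [← pd_det_real]
  rfl

theorem gl_det_pos (g : PD) : 0 < (PD.gl g).det.val := by
  rw [PD.gl_det]
  exact_mod_cast pd_pos g

/-- The action on the upper half plane. -/
noncomputable def act (g : PD) (τ : ℍ) : ℍ := PD.gl g • τ

theorem act_one (τ : ℍ) : act 1 τ = τ := by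
  unfold act
  rw [map_one, one_smul]

theorem act_mul (g h : PD) (τ : ℍ) : act (g * h) τ = act g (act h τ) := by
  unfold act
  rw [map_mul, mul_smul]

theorem coe_act (g : PD) (τ : ℍ) : ((act g τ : ℍ) : ℂ) =
    ((g.1 0 0 : ℂ) * τ + (g.1 0 1 : ℂ)) / ((g.1 1 0 : ℂ) * τ + (g.1 1 1 : ℂ)) := by
  unfold act
  rw [coe_smul_of_det_pos (gl_det_pos g)]
  simp [num, denom, PD.gl_apply]

theorem den_ne_zero (g : PD) (τ : ℍ) : (g.1 1 0 : ℂ) * τ + (g.1 1 1 : ℂ) ≠ 0 := by
  have := denom_ne_zero (PD.gl g) τ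
  simpa [denom, PD.gl_apply] using this

theorem act_eq_iff (g : PD) (τ σ : ℍ) : act g τ = σ ↔
    (σ : ℂ) * ((g.1 1 0 : ℂ) * τ + (g.1 1 1 : ℂ)) = (g.1 0 0 : ℂ) * τ + (g.1 0 1 : ℂ) := by
  rw [← UpperHalfPlane.coe_inj, coe_act, div_eq_iff (den_ne_zero g τ), eq_comm]

/-- The inclusion of `SL(2, ℤ)`. -/
def PD.sl : SL(2, ℤ) →* PD where
  toFun γ := ⟨γ.1, by
    show 0 < γ.1.det
    rw [γ.2]
    norm_num⟩
  map_one' := rfl
  map_mul' _ _ := rfl

theorem PD.sl_val (γ : SL(2, ℤ)) : (PD.sl γ).1 = γ.1 := rfl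

theorem act_sl (γ : SL(2, ℤ)) (τ : ℍ) : act (PD.sl γ) τ = γ • τ := by
  apply UpperHalfPlane.ext
  rw [coe_act, coe_specialLinearGroup_apply]
  simp [PD.sl_val]

/-- Primitive integral matrices. -/
def Prim (g : Matrix (Fin 2) (Fin 2) ℤ) : Prop := ∀ m : ℤ, (∀ i j, m ∣ g i j) → m ∣ 1

theorem prim_iff (g : Matrix (Fin 2) (Fin 2) ℤ) : Prim g ↔
    ∀ m : ℤ, m ∣ g 0 0 → m ∣ g 0 1 → m ∣ g 1 0 → m ∣ g 1 1 → m ∣ 1 := by
  constructor
  · intro h m h1 h2 h3 h4
    apply h m
    intro i j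
    fin_cases i <;> fin_cases j <;> assumption
  · intro h m h1
    exact h m (h1 0 0) (h1 0 1) (h1 1 0) (h1 1 1)

theorem Prim.mul_left {g : Matrix (Fin 2) (Fin 2) ℤ} (hg : Prim g) (γ : SL(2, ℤ)) :
    Prim (γ.1 * g) := by
  intro m hm
  apply hg m
  have h1 : g = (γ⁻¹).1 * (γ.1 * g) := by
    rw [← Matrix.mul_assoc]
    have : (γ⁻¹).1 * γ.1 = 1 := congrArg Subtype.val (inv_mul_cancel γ)
    rw [this, Matrix.one_mul]
  intro i j
  rw [h1, Matrix.mul_apply]
  exact Finset.dvd_sum fun k _ => (hm k j).mul_left _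

theorem Prim.mul_right {g : Matrix (Fin 2) (Fin 2) ℤ} (hg : Prim g) (γ : SL(2, ℤ)) :
    Prim (g * γ.1) := by
  intro m hm
  apply hg m
  have h1 : g = (g * γ.1) * (γ⁻¹).1 := by
    rw [Matrix.mul_assoc]
    have : γ.1 * (γ⁻¹).1 = 1 := congrArg Subtype.val (mul_inv_cancel γ)
    rw [this, Matrix.mul_one]
  intro i j
  rw [h1, Matrix.mul_apply]
  exact Finset.dvd_sum fun k _ => (hm i k).mul_right _

/-- Scalar matrices act trivially. -/
theorem act_smul {g h : PD} {n : ℤ} (hn : n ≠ 0) (hgh : g.1 = n • h.1) (τ : ℍ) :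
    act g τ = act h τ := by
  rw [act_eq_iff, coe_act]
  have h1 : ∀ i j, (g.1 i j : ℂ) = n * (h.1 i j : ℂ) := by
    intro i j
    rw [hgh]
    simp
  have h2 : (n : ℂ) ≠ 0 := by exact_mod_cast hn
  rw [h1, h1, h1, h1, div_mul_eq_mul_div, div_eq_iff (den_ne_zero h τ)]
  ring

theorem det_smul' (n : ℤ) (g : Matrix (Fin 2) (Fin 2) ℤ) : (n • g).det = n ^ 2 * g.det := by
  rw [Matrix.det_smul, Fintype.card_fin]

/-- Every integral matrix is a multiple of a primitive one. -/
theorem exists_prim (g : PD) : ∃ (n : ℤ) (h : PD), 0 < n ∧ g.1 = n • h.1 ∧ Prim h.1 := by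
  obtain ⟨d, hd⟩ : ∃ d : ℕ, g.1.det = d := ⟨g.1.det.toNat, by
    have := (pd_pos g)
    omega⟩
  induction d using Nat.strong_induction_on generalizing g with
  | _ d ih =>
    by_cases hp : Prim g.1
    · exact ⟨1, g, one_pos, by rw [one_smul], hp⟩
    · unfold Prim at hp
      push Not at hp
      obtain ⟨m, hm, hm1⟩ := hp
      have hm0 : m ≠ 0 := by
        rintro rfl
        have h0 : ∀ i j, g.1 i j = 0 := fun i j => zero_dvd_iff.mp (hm i j)
        have := (pd_pos g)
        rw [Matrix.det_fin_two, h0, h0, h0] at this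
        simp at this
      choose c hc using hm
      let h0 : Matrix (Fin 2) (Fin 2) ℤ := fun i j => c i j
      have hgh : g.1 = m • h0 := by
        ext i j
        simp [h0, hc]
      have hdet : g.1.det = m ^ 2 * h0.det := by rw [hgh, det_smul']
      have hm2 : 1 < m ^ 2 := by
        have h1 : ¬ IsUnit m := by
          intro hu
          exact hm1 (hu.dvd)
        rw [Int.isUnit_iff] at h1
        push Not at h1
        rcases lt_trichotomy m 0 with h | h | h
        · have : m ≤ -2 := by omega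
          nlinarith
        · exact absurd h hm0
        · have : 2 ≤ m := by omega
          nlinarith
      have hh0 : 0 < h0.det := by
        have := (pd_pos g)
        rw [hdet] at this
        by_contra hcon
        push Not at hcon
        nlinarith
      obtain ⟨n, h, hn, hh, hp⟩ := ih h0.det.toNat (by
        have h1 : (h0.det.toNat : ℤ) = h0.det := Int.toNat_of_nonneg hh0.le
        have h2 : h0.det < g.1.det := by
          rw [hdet]
          nlinarith
        omega) ⟨h0, hh0⟩ (Int.toNat_of_nonneg hh0.le).symm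
      have hh' : h0 = n • h.1 := hh
      have hsm : g.1 = (m * n) • h.1 := by
        rw [hgh, hh', smul_smul]
      rcases lt_or_gt_of_ne hm0 with hneg | hpos
      · refine ⟨-m * n, ⟨-h.1, ?_⟩, by nlinarith, ?_, ?_⟩
        · show 0 < (-h.1).det
          rw [Matrix.det_neg, Fintype.card_fin]
          have := (pd_pos h)
          simpa using this
        · rw [hsm]
          simp
        · intro k hk
          apply hp k
          intro i j
          have := hk i j
          simpa using this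
      · exact ⟨m * n, h, by positivity, hsm, hp⟩

theorem mrel_iff {N : ℕ} (hN : 0 < N) (x y : ℂ) : MRel N x y ↔
    ∃ (g : PD) (τ : ℍ), g.1.det = N ∧ Prim g.1 ∧ jf τ = y ∧ jf (act g τ) = x := by
  constructor
  · rintro ⟨τ, σ, a, b, c, d, hdet, hp, h, hy, hx⟩
    have hN' : (0 : ℤ) < N := by exact_mod_cast hN
    refine ⟨⟨!![a, b; c, d], ?_⟩, τ, ?_, ?_, hy, ?_⟩
    · show 0 < (!![a, b; c, d] : Matrix (Fin 2) (Fin 2) ℤ).det
      rw [Matrix.det_fin_two_of, hdet]
      exact hN'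
    · simp only [Matrix.det_fin_two_of]
      exact hdet
    · rw [prim_iff]
      simpa using hp
    · have h1 : act ⟨!![a, b; c, d], by
          show 0 < (!![a, b; c, d] : Matrix (Fin 2) (Fin 2) ℤ).det
          rw [Matrix.det_fin_two_of, hdet]
          exact hN'⟩ τ = σ := by
        rw [act_eq_iff]
        simpa using h
      rw [h1]
      exact hx
  · rintro ⟨g, τ, hdet, hp, hy, hx⟩
    refine ⟨τ, act g τ, g.1 0 0, g.1 0 1, g.1 1 0, g.1 1 1, ?_, ?_, ?_, hy, hx⟩
    · rw [← hdet, Matrix.det_fin_two]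
    · exact (prim_iff _).mp hp
    · exact (act_eq_iff g τ _).mp rfl

/-- The relation coming from an integral matrix. -/
theorem mrel_of (h : PD) (σ : ℍ) : ∃ (l : ℕ) (k : PD) (n : ℤ), 0 < l ∧ 0 < n ∧ h.1 = n • k.1 ∧
    Prim k.1 ∧ k.1.det = l ∧ ∀ τ, MRel l (jf (act h τ)) (jf τ) := by
  obtain ⟨n, k, hn, hk, hp⟩ := exists_prim h
  have hpos : 0 < k.1.det := (pd_pos k)
  refine ⟨k.1.det.toNat, k, n, by omega, hn, hk, hp, by omega, ?_⟩
  intro τ
  rw [mrel_iff (by omega)]
  refine ⟨k, τ, by omega, hp, rfl, ?_⟩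
  rw [act_smul hn.ne' hk]

/-- The adjugate. -/
def adjP (g : PD) : PD := ⟨g.1.adjugate, by
  show 0 < g.1.adjugate.det
  have := (pd_pos g)
  rw [Matrix.det_adjugate, Fintype.card_fin]
  simpa using this⟩

theorem adj_det (g : PD) : (adjP g).1.det = g.1.det := by
  show g.1.adjugate.det = g.1.det
  rw [Matrix.det_adjugate, Fintype.card_fin]
  simp

theorem adj_mul (g : PD) : ((adjP g) * g).1 = g.1.det • (1 : PD).1 := by
  show g.1.adjugate * g.1 = g.1.det • (1 : Matrix (Fin 2) (Fin 2) ℤ)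
  rw [Matrix.adjugate_mul]

theorem mul_adj (g : PD) : (g * (adjP g)).1 = g.1.det • (1 : PD).1 := by
  show g.1 * g.1.adjugate = g.1.det • (1 : Matrix (Fin 2) (Fin 2) ℤ)
  rw [Matrix.mul_adjugate]

theorem act_adj (g : PD) (τ : ℍ) : act (adjP g) (act g τ) = τ := by
  rw [← act_mul, act_smul (pd_pos g).ne' (adj_mul g), act_one]

theorem act_adj' (g : PD) (τ : ℍ) : act g (act (adjP g) τ) = τ := by
  rw [← act_mul, act_smul (pd_pos g).ne' (mul_adj g), act_one]

theorem Prim.adj {g : PD} (hg : Prim g.1) : Prim (adjP g).1 := by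
  rw [prim_iff] at *
  intro m h1 h2 h3 h4
  have h : (adjP g).1 = !![g.1 1 1, -g.1 0 1; -g.1 1 0, g.1 0 0] := Matrix.adjugate_fin_two _
  rw [h] at h1 h2 h3 h4
  simp at h1 h2 h3 h4
  exact hg m h4 h2 h3 h1

end PD

end Pool.Agent.MP_dd1803_nt
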