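import Mathlib
import Pool.Agent.MP_dd1803_nt.Y.Mat

open ModularForm UpperHalfPlane MatrixGroups Matrix Filter Topology Manifold EisensteinSeries Function

namespace Pool.Agent.MP_dd1803_nt

section Inv

theorem form_smul {k : ℤ} (f : ModularForm 𝒮ℒ k) (γ : SL(2, ℤ)) (τ : ℍ) :
    f (γ • τ) = (denom γ τ) ^ k * f τ := by
  have h0 : (γ : GL (Fin 2) ℝ) ∈ 𝒮ℒ := ⟨γ, rfl⟩
  exact SlashInvariantForm.slash_action_eqn'' f h0 τ

theorem cusp_smul {k : ℤ} (f : CuspForm 𝒮ℒ k) (γ : SL(2, ℤ)) (τ : ℍ) :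
    f (γ • τ) = (denom γ τ) ^ k * f τ := by
  have h0 : (γ : GL (Fin 2) ℝ) ∈ 𝒮ℒ := ⟨γ, rfl⟩
  exact SlashInvariantForm.slash_action_eqn'' f h0 τ

theorem disc_smul (γ : SL(2, ℤ)) (τ : ℍ) :
    ModularForm.discriminant (γ • τ) = (denom γ τ) ^ 12 * ModularForm.discriminant τ := by
  have h := cusp_smul CuspForm.discriminant γ τ
  exact_mod_cast h

/-- The `j`-function is invariant. -/
theorem jf_smul (γ : SL(2, ℤ)) (τ : ℍ) : jf (γ • τ) = jf τ := by
  unfold jf
  have h1 : E₄ (γ • τ) = (denom γ τ) ^ 4 * E₄ τ := by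
    exact_mod_cast form_smul E₄ γ τ
  rw [h1, disc_smul]
  have h2 : denom (γ : GL (Fin 2) ℝ) τ ≠ 0 := denom_ne_zero _ τ
  have h3 := discriminant_ne_zero τ
  field_simp

theorem mdiff_jf : MDiff (jf : ℍ → ℂ) := by
  have h1 : MDiff (fun τ : ℍ => E₄ τ) := E₄.holo'
  have h2 : MDiff (fun τ : ℍ => ModularForm.discriminant τ) := CuspForm.discriminant.holo'
  have h3 : (jf : ℍ → ℂ) = fun τ => E₄ τ ^ 3 / ModularForm.discriminant τ := rfl
  rw [h3]
  exact (h1.pow 3).div h2 discriminant_ne_zero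

theorem mdiff_act {f : ℍ → ℂ} (hf : MDiff f) (g : PD) : MDiff (fun τ => f (act g τ)) :=
  hf.comp (mdifferentiable_smul (gl_det_pos g))

theorem mdiff_smul {f : ℍ → ℂ} (hf : MDiff f) (γ : SL(2, ℤ)) : MDiff (fun τ => f (γ • τ)) := by
  have h := mdiff_act hf (PD.sl γ)
  simpa only [act_sl] using h

end Inv

section Growth

/-- `exp (2 π i τ)` -/
noncomputable def qq (τ : ℍ) : ℂ := Periodic.qParam 1 τ

theorem qq_eq (τ : ℍ) : qq τ = Complex.exp (2 * Real.pi * Complex.I * τ) := by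
  unfold qq Periodic.qParam
  simp

theorem qq_ne_zero (τ : ℍ) : qq τ ≠ 0 := by
  rw [qq_eq]
  exact Complex.exp_ne_zero _

theorem norm_qq (τ : ℍ) : ‖qq τ‖ = Real.exp (-2 * Real.pi * τ.im) := by
  rw [qq_eq, Complex.norm_exp]
  congr 1
  simp

theorem tendsto_disc : Tendsto (fun τ : ℍ => ModularForm.discriminant τ / qq τ) atImInfty (𝓝 1) := by
  have h1 := tendsto_atImInfty_tprod_one_sub_eta_q_pow
  refine h1.congr ?_
  intro τ
  rw [discriminant_eq_q_prod, eq_div_iff (qq_ne_zero τ), mul_comm]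
  rfl

theorem tendsto_form {k : ℤ} (f : ModularForm 𝒮ℒ k) :
    Tendsto (fun τ : ℍ => f τ) atImInfty (𝓝 ((qExpansion 1 f).coeff 0)) := by
  have hanal := ModularFormClass.analyticAt_cuspFunction_zero f one_pos one_mem_strictPeriods_SL
  have hper := SlashInvariantFormClass.periodic_comp_ofComplex f one_mem_strictPeriods_SL
  rw [qExpansion_coeff_zero one_pos hanal hper, ← cuspFunction_apply_zero one_pos hanal hper]
  exact (hanal.continuousAt.tendsto.comp (qParam_tendsto_atImInfty one_pos)).congr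
    (fun τ => SlashInvariantFormClass.eq_cuspFunction f τ one_mem_strictPeriods_SL one_ne_zero)

theorem tendsto_E4 : Tendsto (fun τ : ℍ => E₄ τ) atImInfty (𝓝 1) := by
  have h := tendsto_form E₄
  rwa [E_qExpansion_coeff_zero _ ⟨2, rfl⟩] at h

theorem tendsto_jf : Tendsto (fun τ : ℍ => jf τ * qq τ) atImInfty (𝓝 1) := by
  have h1 := (tendsto_E4.pow 3).div tendsto_disc one_ne_zero
  rw [one_pow, div_one] at h1
  refine h1.congr ?_
  intro τ
  unfold jf
  simp only [Pi.div_apply]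
  have := qq_ne_zero τ
  have h3 := discriminant_ne_zero τ
  field_simp

end Growth

end Pool.Agent.MP_dd1803_nt
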