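import Mathlib
import Pool.Agent.MP_dd1803_nt.Y.Holo

open ModularForm UpperHalfPlane MatrixGroups Matrix Filter Topology Manifold EisensteinSeries
  Function OnePoint ModularFormClass

namespace Pool.Agent.MP_dd1803_nt

section Mk

/-- Modular forms of level one from the transformation rule and boundedness at infinity. -/
noncomputable def mkForm (k : ℤ) (F : ℍ → ℂ) (hF : MDiff F)
    (hinv : ∀ (γ : SL(2, ℤ)) (τ : ℍ), F (γ • τ) = (denom γ τ) ^ k * F τ)
    (hb : IsBoundedAtImInfty F) : ModularForm 𝒮ℒ k :=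
  have key : ∀ γ : SL(2, ℤ), F ∣[k] γ = F := by
    intro γ
    ext τ
    rw [SL_slash_apply, hinv, mul_comm, ← mul_assoc, ← zpow_add₀ (denom_ne_zero _ _)]
    simp
  { toFun := F
    slash_action_eq' := fun _ ⟨γ, hγ⟩ ↦ hγ ▸ key γ
    holo' := hF
    bdd_at_cusps' := by
      intro c hc
      rw [Subgroup.IsArithmetic.isCusp_iff_isCusp_SL2Z] at hc
      rw [isBoundedAt_iff_forall_SL2Z hc]
      intro γ _
      rw [key γ]
      exact hb }

theorem mkForm_apply (k : ℤ) (F : ℍ → ℂ) (hF : MDiff F)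
    (hinv : ∀ (γ : SL(2, ℤ)) (τ : ℍ), F (γ • τ) = (denom γ τ) ^ k * F τ)
    (hb : IsBoundedAtImInfty F) (τ : ℍ) : mkForm k F hF hinv hb τ = F τ := rfl

end Mk

section Poly

theorem E4_cube (τ : ℍ) : E₄ τ ^ 3 = jf τ * ModularForm.discriminant τ := by
  unfold jf
  rw [div_mul_cancel₀ _ (discriminant_ne_zero τ)]

/-- Modular forms of weight `12 m` are polynomials in `j` times `Δ ^ m`. -/
theorem form_eq_poly (m : ℕ) : ∀ (k : ℤ), k = 12 * m → ∀ F : ModularForm 𝒮ℒ k,
    ∃ P : Polynomial ℂ, P.natDegree ≤ m ∧ P.coeff m = (qExpansion 1 F).coeff 0 ∧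
      ∀ τ, F τ = P.eval (jf τ) * ModularForm.discriminant τ ^ m := by
  induction m with
  | zero =>
    intro k hk F
    have hk0 : k = 0 := by simpa using hk
    subst hk0
    obtain ⟨c, hc⟩ := levelOne_weight_zero_const F
    have h1 : (qExpansion 1 F).coeff 0 = c := by
      apply tendsto_nhds_unique (tendsto_form F)
      rw [hc]
      exact tendsto_const_nhds
    refine ⟨Polynomial.C c, by simp, by simp [h1], fun τ => ?_⟩
    rw [hc]
    simp
  | succ m ih =>
    intro k hk F
    let c := (qExpansion 1 F).coeff 0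
    let E : ModularForm 𝒮ℒ k := ModularForm.mcast (by
      rw [hk]
      push_cast
      ring) (E₄.pow (3 * (m + 1)))
    have hE : ∀ τ, E τ = E₄ τ ^ (3 * (m + 1)) := by
      intro τ
      simp only [E, coe_mcast, ModularForm.coe_pow, Pi.pow_apply]
    have hElim : Tendsto (fun τ : ℍ => E τ) atImInfty (𝓝 1) := by
      have h1 := tendsto_E4.pow (3 * (m + 1))
      rw [one_pow] at h1
      exact h1.congr fun τ => (hE τ).symm
    let G : ModularForm 𝒮ℒ k := F - c • E
    have hG : ∀ τ, G τ = F τ - c * E τ := fun τ => rfl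
    have hG0 : (qExpansion 1 G).coeff 0 = 0 := by
      apply tendsto_nhds_unique (tendsto_form G)
      have h1 := (tendsto_form F).sub (hElim.const_mul c)
      simp only [c, mul_one, sub_self] at h1
      exact h1
    let G' := CuspForm.discriminantEquiv (toCuspForm G hG0)
    have hG' : ∀ τ, G' τ = G τ / ModularForm.discriminant τ := fun τ => rfl
    obtain ⟨P, hP1, _, hP2⟩ := ih (k - 12) (by rw [hk]; push_cast; ring) G'
    refine ⟨Polynomial.C c * Polynomial.X ^ (m + 1) + P, ?_, ?_, ?_⟩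
    · refine (Polynomial.natDegree_add_le _ _).trans (max_le ?_ (by omega))
      exact Polynomial.natDegree_C_mul_X_pow_le _ _
    · rw [Polynomial.coeff_add, Polynomial.coeff_C_mul_X_pow, if_pos rfl,
        Polynomial.coeff_eq_zero_of_natDegree_lt (by omega), add_zero]
    · intro τ
      have h1 := hP2 τ
      rw [hG', div_eq_iff (discriminant_ne_zero τ), hG] at h1
      rw [sub_eq_iff_eq_add] at h1
      rw [h1, hE, pow_mul, E4_cube]
      simp only [Polynomial.eval_add, Polynomial.eval_mul, Polynomial.eval_C,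
        Polynomial.eval_pow, Polynomial.eval_X]
      ring

/-- Invariant holomorphic functions of moderate growth are polynomials in `j`. -/
theorem exists_poly {f : ℍ → ℂ} (hf : MDiff f) (hinv : ∀ (γ : SL(2, ℤ)) (τ : ℍ), f (γ • τ) = f τ)
    (m : ℕ) (hb : IsBoundedAtImInfty (fun τ => f τ * ModularForm.discriminant τ ^ m)) :
    ∃ P : Polynomial ℂ, P.natDegree ≤ m ∧ (∀ τ, f τ = P.eval (jf τ)) ∧
      ∀ c, Tendsto (fun τ => f τ * ModularForm.discriminant τ ^ m) atImInfty (𝓝 c) →
        P.coeff m = c := by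
  have hD : MDiff (fun τ : ℍ => ModularForm.discriminant τ) := CuspForm.discriminant.holo'
  let F := mkForm (12 * m) (fun τ => f τ * ModularForm.discriminant τ ^ m) (hf.mul (hD.pow m))
    (by
      intro γ τ
      rw [hinv, disc_smul, mul_pow, ← pow_mul]
      have : ((denom γ τ) ^ (12 * (m : ℤ)) : ℂ) = (denom γ τ) ^ (12 * m) := by
        exact_mod_cast rfl
      rw [this]
      ring) hb
  obtain ⟨P, hP1, hP2, hP3⟩ := form_eq_poly m _ rfl F
  refine ⟨P, hP1, fun τ => ?_, fun c hc => ?_⟩
  · have h1 := hP3 τ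
    have h2 : F τ = f τ * ModularForm.discriminant τ ^ m := rfl
    rw [h2] at h1
    exact mul_right_cancel₀ (pow_ne_zero _ (discriminant_ne_zero τ)) h1
  · rw [hP2]
    exact tendsto_nhds_unique (tendsto_form F) hc

/-- The `j`-function is surjective. -/
theorem jf_surj (c : ℂ) : ∃ τ, jf τ = c := by
  by_contra hcon
  push Not at hcon
  have h4 : MDiff (fun τ : ℍ => E₄ τ) := E₄.holo'
  have hD : MDiff (fun τ : ℍ => ModularForm.discriminant τ) := CuspForm.discriminant.holo'
  have hne : ∀ τ : ℍ, E₄ τ ^ 3 - c * ModularForm.discriminant τ ≠ 0 := by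
    intro τ h
    apply hcon τ
    rw [E4_cube, ← sub_mul] at h
    exact sub_eq_zero.mp ((mul_eq_zero.mp h).resolve_right (discriminant_ne_zero τ))
  have hlim : Tendsto (fun τ : ℍ => (E₄ τ ^ 3 - c * ModularForm.discriminant τ)⁻¹) atImInfty
      (𝓝 1) := by
    have h1 := (tendsto_E4.pow 3).sub (discriminant_isZeroAtImInfty.const_mul c)
    rw [one_pow, mul_zero, sub_zero] at h1
    have h2 := h1.inv₀ one_ne_zero
    rw [inv_one] at h2
    exact h2
  let F := mkForm (-12) (fun τ => (E₄ τ ^ 3 - c * ModularForm.discriminant τ)⁻¹)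
    (by
      have h1 : MDiff (fun τ : ℍ => E₄ τ ^ 3 - c * ModularForm.discriminant τ) :=
        (h4.pow 3).sub (mdifferentiable_const.mul hD)
      have h2 := (mdifferentiable_const (c := (1 : ℂ))).div h1 hne
      have h3 : (fun τ : ℍ => (E₄ τ ^ 3 - c * ModularForm.discriminant τ)⁻¹) =
          (fun _ => (1 : ℂ)) / fun τ : ℍ => E₄ τ ^ 3 - c * ModularForm.discriminant τ := by
        funext τ
        simp
      rw [h3]
      exact h2)
    (by
      intro γ τ
      have h1 : E₄ (γ • τ) = (denom γ τ) ^ 4 * E₄ τ := by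
        exact_mod_cast form_smul E₄ γ τ
      have h2 : (denom γ τ) ^ 4 * E₄ τ = (denom γ τ) ^ 4 * E₄ τ := rfl
      rw [h1, disc_smul]
      have h3 : ((denom γ τ) ^ 4 * E₄ τ) ^ 3 - c * ((denom γ τ) ^ 12 *
          ModularForm.discriminant τ) = (denom γ τ) ^ 12 *
            (E₄ τ ^ 3 - c * ModularForm.discriminant τ) := by ring
      rw [h3, mul_inv, _root_.zpow_neg]
      norm_cast)
    (hlim.isBigO_one ℝ)
  have h0 := levelOne_neg_weight_eq_zero (by norm_num) F
  have h1 := congrFun h0 I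
  have h2 : F I = (E₄ I ^ 3 - c * ModularForm.discriminant I)⁻¹ := rfl
  rw [h2] at h1
  exact hne I (inv_eq_zero.mp h1)

end Poly

end Pool.Agent.MP_dd1803_nt
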