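import Mathlib
import Pool.Agent.MP_dd1803_nt.Y.Poly

open ModularForm UpperHalfPlane MatrixGroups Matrix Filter Topology Manifold Function
  SpecialLinearGroup

namespace Pool.Agent.MP_dd1803_nt

section FN

/-- The functions `τ ↦ j (g τ)` for the primitive matrices `g` of determinant `N`. -/
def FN (N : ℕ) : Set (ℍ → ℂ) :=
  {f | ∃ g : PD, g.1.det = N ∧ Prim g.1 ∧ f = fun τ => jf (act g τ)}

theorem jf_act_sl (γ : SL(2, ℤ)) (g : PD) (τ : ℍ) : jf (act (PD.sl γ * g) τ) = jf (act g τ) := by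
  rw [act_mul, act_sl, jf_smul]

/-- Upper triangular representatives. -/
theorem exists_upper (g : PD) : ∃ h : PD, h.1.det = g.1.det ∧ h.1 1 0 = 0 ∧ 0 < h.1 0 0 ∧
    0 ≤ h.1 0 1 ∧ h.1 0 1 < h.1 1 1 ∧ ∃ γ : SL(2, ℤ), h = PD.sl γ * g := by
  have hm : g.1.det ≠ 0 := (pd_pos g).ne'
  let C : FixedDetMatrix (Fin 2) ℤ g.1.det → Prop := fun A =>
    ∃ h : PD, h.1.det = g.1.det ∧ h.1 1 0 = 0 ∧ 0 < h.1 0 0 ∧
      0 ≤ h.1 0 1 ∧ h.1 0 1 < h.1 1 1 ∧ ∃ γ : SL(2, ℤ), h.1 = (γ • A).1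
  have key : C ⟨g.1, rfl⟩ := by
    refine FixedDetMatrices.induction_on (C := C) hm ?_ ?_ ?_
    · intro A h1 h2 h3 h4
      have hA : A.1.det = g.1.det := A.2
      have hpos : 0 < A.1.det := by
        rw [hA]
        exact pd_pos g
      refine ⟨⟨A.1, hpos⟩, hA, h1, h2, h3, ?_, 1, ?_⟩
      · rw [abs_of_nonneg h3] at h4
        have h5 : 0 < A.1 0 0 * A.1 1 1 := by
          rw [Matrix.det_fin_two, h1, mul_zero, sub_zero] at hpos
          exact hpos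
        have h6 : 0 < A.1 1 1 := pos_of_mul_pos_right h5 h2.le
        rwa [abs_of_pos h6] at h4
      · rw [one_smul]
    · rintro B ⟨h, h1, h2, h3, h4, h5, γ, h6⟩
      refine ⟨h, h1, h2, h3, h4, h5, γ * ModularGroup.S⁻¹, ?_⟩
      rw [SemigroupAction.mul_smul, inv_smul_smul]
      exact h6
    · rintro B ⟨h, h1, h2, h3, h4, h5, γ, h6⟩
      refine ⟨h, h1, h2, h3, h4, h5, γ * ModularGroup.T⁻¹, ?_⟩
      rw [SemigroupAction.mul_smul, inv_smul_smul]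
      exact h6
  obtain ⟨h, h1, h2, h3, h4, h5, γ, h6⟩ := key
  refine ⟨h, h1, h2, h3, h4, h5, γ, Subtype.ext ?_⟩
  rw [h6, FixedDetMatrices.smul_coe]
  rfl

theorem exists_upper_FN {N : ℕ} {f : ℍ → ℂ} (hf : f ∈ FN N) : ∃ h : PD, h.1.det = N ∧
    Prim h.1 ∧ h.1 1 0 = 0 ∧ 0 < h.1 0 0 ∧ 0 ≤ h.1 0 1 ∧ h.1 0 1 < h.1 1 1 ∧
      f = fun τ => jf (act h τ) := by
  obtain ⟨g, hg, hp, rfl⟩ := hf
  obtain ⟨h, h1, h2, h3, h4, h5, γ, rfl⟩ := exists_upper g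
  refine ⟨_, h1.trans hg, hp.mul_left γ, h2, h3, h4, h5, ?_⟩
  funext τ
  rw [jf_act_sl]

theorem FN_finite (N : ℕ) : (FN N).Finite := by
  classical
  let S : Finset (ℤ × ℤ × ℤ) := Finset.Icc 0 (N : ℤ) ×ˢ Finset.Icc 0 (N : ℤ) ×ˢ Finset.Icc 0 (N : ℤ)
  let F : ℤ × ℤ × ℤ → ℍ → ℂ := fun p τ =>
    if h : 0 < (!![p.1, p.2.1; 0, p.2.2] : Matrix (Fin 2) (Fin 2) ℤ).det then
      jf (act ⟨!![p.1, p.2.1; 0, p.2.2], h⟩ τ) else 0
  apply (S.image F).finite_toSet.subset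
  intro f hf
  obtain ⟨h, h1, _, h2, h3, h4, h5, rfl⟩ := exists_upper_FN hf
  rw [Finset.coe_image]
  refine ⟨(h.1 0 0, h.1 0 1, h.1 1 1), ?_, ?_⟩
  · have h6 : h.1 0 0 * h.1 1 1 = N := by
      rw [← h1, Matrix.det_fin_two, h2]
      ring
    have h7 : 0 < h.1 1 1 := by omega
    have h8 : h.1 0 0 ≤ N := by nlinarith
    have h9 : h.1 1 1 ≤ N := by nlinarith
    simp only [S, Finset.coe_product, Set.mem_prod, Finset.mem_coe, Finset.mem_Icc]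
    omega
  · have hh : h.1 = !![h.1 0 0, h.1 0 1; 0, h.1 1 1] := by
      ext i j
      fin_cases i <;> fin_cases j <;> simp [h2]
    funext τ
    have hd : 0 < (!![h.1 0 0, h.1 0 1; 0, h.1 1 1] : Matrix (Fin 2) (Fin 2) ℤ).det := by
      rw [← hh]
      exact pd_pos h
    simp only [F]
    rw [dif_pos hd]
    congr 2
    exact Subtype.ext hh.symm

theorem FN_smul {N : ℕ} {f : ℍ → ℂ} (hf : f ∈ FN N) (γ : SL(2, ℤ)) :
    (fun τ => f (γ • τ)) ∈ FN N := by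
  obtain ⟨g, hg, hp, rfl⟩ := hf
  refine ⟨g * PD.sl γ, ?_, hp.mul_right γ, ?_⟩
  · show (g.1 * γ.1).det = N
    rw [Matrix.det_mul, hg, γ.2, mul_one]
  · funext τ
    rw [act_mul, act_sl]

theorem FN_mdiff {N : ℕ} {f : ℍ → ℂ} (hf : f ∈ FN N) : MDiff f := by
  obtain ⟨g, _, _, rfl⟩ := hf
  exact mdiff_act mdiff_jf g

theorem im_act (g : PD) (τ : ℍ) : (act g τ).im =
    (g.1.det : ℝ) * τ.im / Complex.normSq ((g.1 1 0 : ℂ) * τ + (g.1 1 1 : ℂ)) := by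
  unfold act
  rw [UpperHalfPlane.im_smul_eq_div_normSq, PD.gl_det, abs_of_pos (by exact_mod_cast pd_pos g)]
  simp [denom, PD.gl_apply]

theorem im_act_upper {g : PD} (h : g.1 1 0 = 0) (τ : ℍ) :
    (act g τ).im = (g.1 0 0 : ℝ) / (g.1 1 1 : ℝ) * τ.im := by
  have h1 : g.1.det = g.1 0 0 * g.1 1 1 := by
    rw [Matrix.det_fin_two, h]
    ring
  have h2 : g.1 1 1 ≠ 0 := by
    intro h3
    have := pd_pos g
    rw [h1, h3, mul_zero] at this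
    exact lt_irrefl _ this
  have h3 : (g.1 1 1 : ℝ) ≠ 0 := by exact_mod_cast h2
  rw [im_act, h1, h]
  push_cast
  rw [zero_mul, zero_add]
  have h4 : Complex.normSq (g.1 1 1 : ℂ) = (g.1 1 1 : ℝ) ^ 2 := by
    rw [sq, ← Complex.normSq_ofReal]
    simp
  rw [h4]
  field_simp

theorem tendsto_act_upper {g : PD} (h : g.1 1 0 = 0) : Tendsto (act g) atImInfty atImInfty := by
  have h1 : g.1.det = g.1 0 0 * g.1 1 1 := by
    rw [Matrix.det_fin_two, h]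
    ring
  have h2 : 0 < (g.1 0 0 : ℝ) / (g.1 1 1 : ℝ) := by
    have h3 := pd_pos g
    rw [h1] at h3
    have h4 : (0 : ℝ) < (g.1 0 0 : ℝ) * (g.1 1 1 : ℝ) := by exact_mod_cast h3
    rcases pos_and_pos_or_neg_and_neg_of_mul_pos h4 with h5 | h5
    · exact div_pos h5.1 h5.2
    · exact div_pos_of_neg_of_neg h5.1 h5.2
  rw [atImInfty, tendsto_comap_iff]
  have h3 : UpperHalfPlane.im ∘ act g = fun τ => (g.1 0 0 : ℝ) / (g.1 1 1 : ℝ) * τ.im := by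
    funext τ
    exact im_act_upper h τ
  rw [h3]
  exact Tendsto.const_mul_atTop h2 tendsto_comap

end FN

end Pool.Agent.MP_dd1803_nt
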