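import Mathlib
import Pool.Agent.MP_dd1803_nt.Y.Corr

open ModularForm UpperHalfPlane MatrixGroups Filter Topology Manifold Function Asymptotics

namespace Pool.Agent.MP_dd1803_nt

section Growth

/-- growth condition -/
def Gr (m : ℕ) (f : ℍ → ℂ) : Prop :=
  (fun τ => f τ * ModularForm.discriminant τ ^ m) =O[atImInfty] (fun _ : ℍ => (1 : ℝ))

theorem gr_iff {m : ℕ} {f : ℍ → ℂ} : Gr m f ↔
    IsBoundedAtImInfty (fun τ => f τ * ModularForm.discriminant τ ^ m) := Iff.rfl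

theorem disc_isBigO : (fun τ : ℍ => ModularForm.discriminant τ) =O[atImInfty]
    (fun _ : ℍ => (1 : ℝ)) :=
  Tendsto.isBigO_one ℝ discriminant_isZeroAtImInfty

theorem Gr.mul {m n : ℕ} {f g : ℍ → ℂ} (hf : Gr m f) (hg : Gr n g) : Gr (m + n) (f * g) := by
  have h := IsBigO.mul hf hg
  unfold Gr
  refine (h.congr_left ?_).congr_right ?_
  · intro τ
    simp only [Pi.mul_apply]
    ring
  · intro τ
    simp

theorem gr_const (c : ℂ) : Gr 0 (fun _ => c) := by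
  unfold Gr
  simp only [pow_zero, mul_one]
  exact isBigO_const_const c one_ne_zero _

theorem gr_one (m : ℕ) : Gr m 1 := by
  unfold Gr
  have h := disc_isBigO.pow m
  refine (h.congr_left ?_).congr_right ?_
  · intro τ
    simp
  · intro τ
    simp

theorem Gr.mono {m n : ℕ} {f : ℍ → ℂ} (hf : Gr m f) (h : m ≤ n) : Gr n f := by
  obtain ⟨k, rfl⟩ := Nat.exists_eq_add_of_le h
  have := hf.mul (gr_one k)
  rwa [mul_one] at this

theorem Gr.add {m : ℕ} {f g : ℍ → ℂ} (hf : Gr m f) (hg : Gr m g) : Gr m (f + g) := by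
  have h := IsBigO.add hf hg
  unfold Gr
  refine h.congr_left ?_
  intro τ
  simp only [Pi.add_apply]
  ring

theorem Gr.neg {m : ℕ} {f : ℍ → ℂ} (hf : Gr m f) : Gr m (-f) := by
  have h := IsBigO.neg_left hf
  unfold Gr
  refine h.congr_left ?_
  intro τ
  simp only [Pi.neg_apply]
  ring

theorem tendsto_jf_act {h : PD} (h0 : h.1 1 0 = 0) :
    Tendsto (fun τ : ℍ => jf (act h τ) * qq (act h τ)) atImInfty (𝓝 1) :=
  tendsto_jf.comp (tendsto_act_upper h0)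

/-- Growth of the conjugates. -/
theorem FN_growth {N : ℕ} {f : ℍ → ℂ} (hf : f ∈ FN N) : Gr N f := by
  obtain ⟨h, h1, _, h2, h3, h4, h5, rfl⟩ := exists_upper_FN hf
  have h6 : h.1 0 0 * h.1 1 1 = N := by
    rw [← h1, Matrix.det_fin_two, h2]
    ring
  have h7 : 0 < h.1 1 1 := by omega
  have h8 : (h.1 0 0 : ℝ) / (h.1 1 1 : ℝ) ≤ N := by
    rw [div_le_iff₀ (by exact_mod_cast h7)]
    have : h.1 0 0 ≤ N * h.1 1 1 := by nlinarith
    exact_mod_cast this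
  have e1 := (tendsto_jf_act h2).mul (tendsto_disc.pow N)
  rw [one_pow, mul_one] at e1
  have e2 := e1.isBigO_one ℝ
  have e3 : (fun τ : ℍ => qq τ ^ N / qq (act h τ)) =O[atImInfty] (fun _ => (1 : ℝ)) := by
    apply IsBigO.of_bound 1
    filter_upwards with τ
    rw [norm_div, norm_pow, norm_qq, norm_qq, im_act_upper h2, ← Real.exp_nat_mul, ← Real.exp_sub]
    simp only [norm_one, mul_one]
    rw [Real.exp_le_one_iff]
    have h9 : 0 < τ.im := τ.im_pos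
    have h10 : (h.1 0 0 : ℝ) / (h.1 1 1 : ℝ) * τ.im ≤ N * τ.im :=
      mul_le_mul_of_nonneg_right h8 h9.le
    nlinarith [Real.pi_pos]
  have e4 := e2.mul e3
  unfold Gr
  refine (e4.congr_left ?_).congr_right ?_
  · intro τ
    have q1 := qq_ne_zero τ
    have q2 := qq_ne_zero (act h τ)
    rw [div_pow]
    field_simp
  · intro τ
    simp

end Growth

section Ring

/-- Holomorphic functions of moderate growth. -/
def HR : Subring (ℍ → ℂ) where
  carrier := {f | MDiff f ∧ ∃ m : ℕ, Gr m f}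
  zero_mem' := ⟨mdifferentiable_const, 0, gr_const 0⟩
  one_mem' := ⟨mdifferentiable_const, 0, gr_one 0⟩
  add_mem' := by
    rintro f g ⟨hf, m, hm⟩ ⟨hg, n, hn⟩
    exact ⟨hf.add hg, m + n, (hm.mono (by omega)).add (hn.mono (by omega))⟩
  neg_mem' := by
    rintro f ⟨hf, m, hm⟩
    exact ⟨hf.neg, m, hm.neg⟩
  mul_mem' := by
    rintro f g ⟨hf, m, hm⟩ ⟨hg, n, hn⟩
    exact ⟨hf.mul hg, m + n, hm.mul hn⟩

theorem mem_HR {f : ℍ → ℂ} : f ∈ HR ↔ MDiff f ∧ ∃ m : ℕ, Gr m f := Iff.rfl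

theorem FN_HR {N : ℕ} {f : ℍ → ℂ} (hf : f ∈ FN N) : f ∈ HR := ⟨FN_mdiff hf, N, FN_growth hf⟩

/-- The finite set of conjugates. -/
noncomputable def SN (N : ℕ) : Finset (ℍ → ℂ) := (FN_finite N).toFinset

theorem mem_SN {N : ℕ} {f : ℍ → ℂ} : f ∈ SN N ↔ f ∈ FN N := by
  unfold SN
  rw [Set.Finite.mem_toFinset]

/-- Invariance of symmetric expressions in the conjugates. -/
theorem prod_SN_smul {R : Type} [CommMonoid R] (N : ℕ) (G : ℂ → R) (γ : SL(2, ℤ)) (τ : ℍ) :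
    ∏ f ∈ SN N, G (f (γ • τ)) = ∏ f ∈ SN N, G (f τ) := by
  refine Finset.prod_bij' (i := fun f _ => fun τ => f (γ • τ)) (j := fun f _ => fun τ => f (γ⁻¹ • τ))
    ?_ ?_ ?_ ?_ ?_
  · intro f hf
    exact mem_SN.mpr (FN_smul (mem_SN.mp hf) γ)
  · intro f hf
    exact mem_SN.mpr (FN_smul (mem_SN.mp hf) γ⁻¹)
  · intro f _
    funext τ
    show f (γ • γ⁻¹ • τ) = f τ
    rw [smul_inv_smul]
  · intro f _
    funext τ
    show f (γ⁻¹ • γ • τ) = f τ
    rw [inv_smul_smul]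
  · intro f _
    rfl

/-- The modular polynomial, one variable at a time. -/
theorem exists_coeffs (N : ℕ) : ∃ P : ℕ → Polynomial ℂ, ∀ (k : ℕ) (τ : ℍ),
    (∏ f ∈ SN N, (Polynomial.X - Polynomial.C (f τ))).coeff k = (P k).eval (jf τ) := by
  classical
  let Ψ : Polynomial HR := ∏ f ∈ (SN N).attach,
    (Polynomial.X - Polynomial.C (⟨f.1, FN_HR (mem_SN.mp f.2)⟩ : HR))
  have hΨ : ∀ (k : ℕ) (τ : ℍ), (Ψ.coeff k).1 τ =
      (∏ f ∈ SN N, (Polynomial.X - Polynomial.C (f τ))).coeff k := by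
    intro k τ
    let ev : HR →+* ℂ := (Pi.evalRingHom (fun _ => ℂ) τ).comp HR.subtype
    have h1 : (Ψ.map ev).coeff k = (Ψ.coeff k).1 τ := by
      rw [Polynomial.coeff_map]
      rfl
    rw [← h1, Polynomial.map_prod]
    congr 1
    rw [← Finset.prod_attach (SN N)]
    apply Finset.prod_congr rfl
    intro f _
    rw [Polynomial.map_sub, Polynomial.map_X, Polynomial.map_C]
    rfl
  have h2 : ∀ k, ∃ P : Polynomial ℂ, ∀ τ, (Ψ.coeff k).1 τ = P.eval (jf τ) := by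
    intro k
    obtain ⟨h3, m, h4⟩ := mem_HR.mp (Ψ.coeff k).2
    obtain ⟨P, _, hP, _⟩ := exists_poly h3 (by
      intro γ τ
      rw [hΨ, hΨ]
      rw [prod_SN_smul N (fun z => Polynomial.X - Polynomial.C z) γ τ]) m h4
    exact ⟨P, hP⟩
  choose P hP using h2
  refine ⟨P, fun k τ => ?_⟩
  rw [← hP, hΨ]

/-- The modular polynomial. -/
theorem exists_modpoly (N : ℕ) : ∃ P : MvPolynomial (Fin 2) ℂ, ∀ (x : ℂ) (τ : ℍ),
    MvPolynomial.aeval ![x, jf τ] P = ∏ f ∈ SN N, (x - f τ) := by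
  obtain ⟨P, hP⟩ := exists_coeffs N
  refine ⟨∑ k ∈ Finset.range ((SN N).card + 1), MvPolynomial.X 0 ^ k *
    Polynomial.aeval (MvPolynomial.X 1) (P k), ?_⟩
  intro x τ
  have h1 : ∏ f ∈ SN N, (x - f τ) =
      (∏ f ∈ SN N, (Polynomial.X - Polynomial.C (f τ))).eval x := by
    rw [Polynomial.eval_prod]
    simp
  have h2 : (∏ f ∈ SN N, (Polynomial.X - Polynomial.C (f τ))).natDegree < (SN N).card + 1 := by
    rw [Polynomial.natDegree_prod_of_monic _ _ (fun f _ => Polynomial.monic_X_sub_C _)]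
    simp
  rw [h1, Polynomial.eval_eq_sum_range' h2, map_sum]
  apply Finset.sum_congr rfl
  intro k _
  rw [hP, map_mul, map_pow, MvPolynomial.aeval_X, ← Polynomial.aeval_algHom_apply,
    MvPolynomial.aeval_X]
  simp only [Matrix.cons_val_zero, Matrix.cons_val_one, Polynomial.coe_aeval_eq_eval]
  ring

/-- The relation does not depend on the choice of a preimage. -/
theorem mrel_jf {N : ℕ} (hN : 0 < N) (x : ℂ) (τ : ℍ) : MRel N x (jf τ) ↔
    ∃ f ∈ FN N, x = f τ := by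
  obtain ⟨P, hP⟩ := exists_modpoly N
  constructor
  · intro h
    rw [mrel_iff hN] at h
    obtain ⟨g, τ0, hdet, hp, h1, h2⟩ := h
    have h3 : MvPolynomial.aeval ![x, jf τ0] P = 0 := by
      rw [hP, Finset.prod_eq_zero_iff]
      refine ⟨fun τ => jf (act g τ), mem_SN.mpr ⟨g, hdet, hp, rfl⟩, ?_⟩
      show x - jf (act g τ0) = 0
      rw [h2, sub_self]
    rw [h1, hP, Finset.prod_eq_zero_iff] at h3
    obtain ⟨f, hf, h4⟩ := h3
    exact ⟨f, mem_SN.mp hf, sub_eq_zero.mp h4⟩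
  · rintro ⟨f, ⟨g, hdet, hp, rfl⟩, rfl⟩
    rw [mrel_iff hN]
    exact ⟨g, τ, hdet, hp, rfl, rfl⟩

theorem mrel_poly {N : ℕ} (hN : 0 < N) : ∃ P : MvPolynomial (Fin 2) ℂ,
    ∀ x y, MRel N x y ↔ MvPolynomial.aeval ![x, y] P = 0 := by
  obtain ⟨P, hP⟩ := exists_modpoly N
  refine ⟨P, fun x y => ?_⟩
  obtain ⟨τ, rfl⟩ := jf_surj y
  rw [mrel_jf hN, hP, Finset.prod_eq_zero_iff]
  constructor
  · rintro ⟨f, hf, h⟩
    exact ⟨f, mem_SN.mpr hf, sub_eq_zero.mpr h⟩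
  · rintro ⟨f, hf, h⟩
    exact ⟨f, mem_SN.mp hf, sub_eq_zero.mp h⟩

end Ring

end Pool.Agent.MP_dd1803_nt
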