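import Mathlib
import Pool.Agent.MP_dd1803_nt.Y.ModPoly
import Pool.Agent.MP_dd1803_nt.Y.JInj

open ModularForm UpperHalfPlane MatrixGroups Matrix

namespace Pool.Agent.MP_dd1803_nt

section Rel

theorem le_sq_mul {n l : ℤ} (hn : 0 < n) (hl : 0 ≤ l) : l ≤ n ^ 2 * l := by
  have h : 1 ≤ n ^ 2 := by nlinarith
  nlinarith

theorem prim_one : Prim (1 : PD).1 := by
  intro m hm
  have := hm 0 0
  simpa using this

theorem mrel_one (x y : ℂ) : MRel 1 x y ↔ x = y := by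
  rw [mrel_iff one_pos]
  constructor
  · rintro ⟨g, τ, hdet, _, rfl, rfl⟩
    let γ : SL(2, ℤ) := ⟨g.1, by simpa using hdet⟩
    have h : g = PD.sl γ := Subtype.ext rfl
    rw [h, act_sl, jf_smul]
  · rintro rfl
    obtain ⟨τ, rfl⟩ := jf_surj x
    refine ⟨1, τ, by simp, prim_one, rfl, ?_⟩
    rw [act_one]

theorem mrel_symm {N : ℕ} (hN : 0 < N) {x y : ℂ} (h : MRel N x y) : MRel N y x := by
  rw [mrel_iff hN] at h ⊢
  obtain ⟨g, τ, hdet, hp, hy, hx⟩ := h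
  refine ⟨adjP g, act g τ, ?_, hp.adj, hx, ?_⟩
  · rw [adj_det, hdet]
  · rw [act_adj, hy]

theorem mrel_fin {N : ℕ} (hN : 0 < N) (x : ℂ) : {y | MRel N x y}.Finite := by
  obtain ⟨τ, rfl⟩ := jf_surj x
  apply ((FN_finite N).image (fun f => f τ)).subset
  intro y hy
  obtain ⟨f, hf, h⟩ := (mrel_jf hN y τ).mp (mrel_symm hN hy)
  exact ⟨f, hf, h.symm⟩

/-- Composition. -/
theorem mrel_comp {N M : ℕ} (hN : 0 < N) (hM : 0 < M) {x y z : ℂ} (h : MRel N x y)
    (h' : MRel M y z) : ∃ l : ℕ, 0 < l ∧ l ≤ N * M ∧ MRel l x z := by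
  rw [mrel_iff hM] at h'
  obtain ⟨g, τ, hdet, hp, rfl, rfl⟩ := h'
  obtain ⟨f, ⟨k, hk, hkp, rfl⟩, rfl⟩ := (mrel_jf hN x _).mp h
  obtain ⟨l, k', n, hl, hn, h1, h2, h3, h4⟩ := mrel_of (k * g) τ
  refine ⟨l, hl, ?_, ?_⟩
  · have h5 : (k * g).1.det = (N * M : ℕ) := by
      show (k.1 * g.1).det = _
      rw [Matrix.det_mul, hk, hdet]
      push_cast
      ring
    rw [h1, det_smul', h3] at h5
    have h6 : (l : ℤ) ≤ n ^ 2 * l := le_sq_mul hn (by positivity)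
    have h7 : (l : ℤ) ≤ (N * M : ℕ) := by rw [← h5]; exact h6
    exact_mod_cast h7
  · have := h4 τ
    rwa [act_mul] at this

theorem mrel_trans {N M : ℕ} (hN : 0 < N) (hM : 0 < M) : ∃ L : Finset ℕ, (∀ l ∈ L, 0 < l) ∧
    ∀ x y z, MRel N x y → MRel M y z → ∃ l ∈ L, MRel l x z := by
  refine ⟨Finset.Icc 1 (N * M), ?_, ?_⟩
  · intro l hl
    exact (Finset.mem_Icc.mp hl).1
  · intro x y z h h'
    obtain ⟨l, h1, h2, h3⟩ := mrel_comp hN hM h h'
    exact ⟨l, Finset.mem_Icc.mpr ⟨h1, h2⟩, h3⟩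

/-- Proportional primitive matrices. -/
theorem prim_dvd {g h : Matrix (Fin 2) (Fin 2) ℤ} (hh : Prim h) {a b : ℤ} (ha : a ≠ 0)
    (hab : a • g = b • h) : a ∣ b := by
  have h1 : 0 < Int.gcd a b := Int.gcd_pos_of_ne_zero_left _ ha
  obtain ⟨a', b', h2, h3, h4⟩ := Int.exists_gcd_one h1
  have h5 : a' ∣ 1 := by
    apply hh a'
    intro i j
    have h6 := congrFun (congrFun hab i) j
    simp only [Matrix.smul_apply, smul_eq_mul] at h6
    have h7 : (Int.gcd a b : ℤ) * (a' * g i j) = (Int.gcd a b : ℤ) * (b' * h i j) := by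
      have e1 : (Int.gcd a b : ℤ) * (a' * g i j) = a * g i j := by
        linear_combination (-(g i j)) * h3
      have e2 : (Int.gcd a b : ℤ) * (b' * h i j) = b * h i j := by
        linear_combination (-(h i j)) * h4
      rw [e1, e2, h6]
    have h8 := mul_left_cancel₀ (by exact_mod_cast h1.ne') h7
    have h9 : a' ∣ b' * h i j := ⟨g i j, h8.symm⟩
    exact (Int.isCoprime_iff_gcd_eq_one.mpr h2).dvd_of_dvd_mul_left h9
  have h6 : a ∣ (Int.gcd a b : ℤ) := by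
    obtain ⟨c, hc⟩ := h5
    refine ⟨c, ?_⟩
    linear_combination (Int.gcd a b : ℤ) * hc - c * h3
  exact h6.trans (Int.gcd_dvd_right _ _)

/-- Two different relations give complex multiplication. -/
theorem mrel_cm' {N M : ℕ} (hN : 0 < N) (hM : 0 < M) (hNM : N ≠ M) {x y : ℂ} (h : MRel N x y)
    (h' : MRel M x y) : ∃ l : ℕ, 1 < l ∧ l ≤ N * M ∧ MRel l x x := by
  rw [mrel_iff hM] at h'
  obtain ⟨g, τ, hdet, hp, rfl, rfl⟩ := h'
  obtain ⟨f, ⟨k, hk, hkp, rfl⟩, hx⟩ := (mrel_jf hN _ τ).mp h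
  -- `jf (g τ) = jf (k τ)`
  obtain ⟨l, k', n, hl, hn, h1, h2, h3, h4⟩ := mrel_of (k * adjP g) (act g τ)
  have h5 : (k * adjP g).1.det = (N * M : ℕ) := by
    show (k.1 * (adjP g).1).det = _
    rw [Matrix.det_mul, hk, adj_det, hdet]
    push_cast
    ring
  have h6 : n ^ 2 * l = (N * M : ℕ) := by
    rw [← h5, h1, det_smul', h3]
  have h7 := h4 (act g τ)
  rw [act_mul, act_adj] at h7
  have hx' : jf (act k τ) = jf (act g τ) := hx.symm
  rw [hx'] at h7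
  refine ⟨l, ?_, ?_, h7⟩
  · by_contra hcon
    have hl1 : l = 1 := by omega
    subst hl1
    have h8 : k.1 * (adjP g).1 = n • k'.1 := h1
    have h9 : (adjP g).1 * g.1 = g.1.det • (1 : Matrix (Fin 2) (Fin 2) ℤ) := adj_mul g
    have h10 : (M : ℤ) • k.1 = n • (k'.1 * g.1) := by
      rw [← Matrix.smul_mul, ← h8, Matrix.mul_assoc, h9, hdet, Matrix.mul_smul, Matrix.mul_one]
    let γ : SL(2, ℤ) := ⟨k'.1, by simpa using h3⟩
    have h11 : Prim (k'.1 * g.1) := hp.mul_left γ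
    have hM' : (M : ℤ) ≠ 0 := by exact_mod_cast hM.ne'
    have h12 : (M : ℤ) ∣ n := prim_dvd h11 hM' h10
    have h13 : n ∣ (M : ℤ) := prim_dvd hkp hn.ne' h10.symm
    have h14 : n = M := Int.dvd_antisymm hn.le (by positivity) h13 h12
    rw [h14] at h6
    push_cast at h6
    have h15 : (M : ℤ) * (M - N) = 0 := by linear_combination h6
    rcases mul_eq_zero.mp h15 with h16 | h16
    · exact hM' h16
    · apply hNM
      have : (M : ℤ) = N := by linear_combination h16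
      exact_mod_cast this.symm
  · have h8 : (l : ℤ) ≤ n ^ 2 * l := le_sq_mul hn (by positivity)
    rw [h6] at h8
    exact_mod_cast h8

theorem mrel_cm {N M : ℕ} (hN : 0 < N) (hM : 0 < M) (hNM : N ≠ M) :
    ∃ L : Finset ℕ, (∀ l ∈ L, 1 < l) ∧
      ∀ x y, MRel N x y → MRel M x y → ∃ l ∈ L, MRel l x x := by
  refine ⟨Finset.Icc 2 (N * M), ?_, ?_⟩
  · intro l hl
    have := (Finset.mem_Icc.mp hl).1
    omega
  · intro x y h h'
    obtain ⟨l, h1, h2, h3⟩ := mrel_cm' hN hM hNM h h'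
    exact ⟨l, Finset.mem_Icc.mpr ⟨h1, h2⟩, h3⟩

end Rel

end Pool.Agent.MP_dd1803_nt
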