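import Mathlib
import Pool.Agent.MP_dd1803_nt.Y.Rel

open ModularForm UpperHalfPlane MatrixGroups Matrix

namespace Pool.Agent.MP_dd1803_nt

section CM

theorem lin_zero {τ : ℍ} {s t : ℤ} (hst : (s : ℂ) * τ + t = 0) : s = 0 ∧ t = 0 := by
  have h5 := congrArg Complex.im hst
  simp at h5
  have h6 : s = 0 := by
    rcases h5 with h5 | h5
    · exact_mod_cast h5
    · exact absurd h5 τ.im_pos.ne'
  subst h6
  refine ⟨rfl, ?_⟩
  have : (t : ℂ) = 0 := by simpa using hst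
  exact_mod_cast this

/-- Imaginary quadratic points. -/
def Quad (τ : ℍ) : Prop := ∃ A B C : ℤ, A ≠ 0 ∧ (A : ℂ) * τ ^ 2 + B * τ + C = 0

theorem quad_of {τ : ℍ} {A B C : ℤ} (h : ¬ (A = 0 ∧ B = 0 ∧ C = 0))
    (h' : (A : ℂ) * τ ^ 2 + B * τ + C = 0) : Quad τ := by
  refine ⟨A, B, C, ?_, h'⟩
  rintro rfl
  apply h
  refine ⟨rfl, lin_zero (τ := τ) ?_⟩
  linear_combination h'

theorem quad_of_mrel {l : ℕ} (hl : 1 < l) {τ : ℍ} (h : MRel l (jf τ) (jf τ)) : Quad τ := by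
  obtain ⟨f, ⟨k, hk, hkp, rfl⟩, h1⟩ := (mrel_jf (by omega) _ τ).mp h
  have h1' : jf (act k τ) = jf τ := h1.symm
  obtain ⟨γ, hγ⟩ := jf_inj h1'
  rw [← act_sl, ← act_mul] at hγ
  set m : PD := PD.sl γ * k with hm
  have hmp : Prim m.1 := hkp.mul_left γ
  have hmd : m.1.det = l := by
    show (γ.1 * k.1).det = l
    rw [Matrix.det_mul, γ.2, hk, one_mul]
  rw [act_eq_iff] at hγ
  apply quad_of (A := m.1 1 0) (B := m.1 1 1 - m.1 0 0) (C := -m.1 0 1)
  · rintro ⟨h2, h3, h4⟩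
    have h5 : m.1 1 1 = m.1 0 0 := by omega
    have h6 : m.1 0 1 = 0 := by omega
    have h7 : m.1 0 0 ∣ 1 := by
      rw [prim_iff] at hmp
      apply hmp
      · exact dvd_rfl
      · rw [h6]
        exact dvd_zero _
      · rw [h2]
        exact dvd_zero _
      · rw [h5]
    rw [Matrix.det_fin_two, h2, h5, h6] at hmd
    have h8 : m.1 0 0 * m.1 0 0 = l := by linear_combination hmd
    have h9 : (l : ℤ) ∣ 1 := by
      rw [← h8]
      calc m.1 0 0 * m.1 0 0 ∣ 1 * 1 := mul_dvd_mul h7 h7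
        _ = 1 := one_mul 1
    have h10 : (l : ℤ) = 1 := Int.eq_one_of_dvd_one (by positivity) h9
    have : l = 1 := by exact_mod_cast h10
    omega
  · push_cast
    linear_combination hγ

theorem mrel_of_quad {τ : ℍ} (h : Quad τ) : ∃ l : ℕ, 1 < l ∧ MRel l (jf τ) (jf τ) := by
  obtain ⟨A, B, C, hA, h⟩ := h
  set x : ℤ := |B| + |A * C| + A ^ 2 + 1 with hx
  have hdet : A ^ 2 < x * (x + B) + A * C := by
    have h1 := neg_abs_le B
    have h2 := neg_abs_le (A * C)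
    have h3 := abs_nonneg B
    have h4 := abs_nonneg (A * C)
    have h5 : |A * C| + A ^ 2 + 1 ≤ x + B := by omega
    have h6 : 1 ≤ x := by nlinarith [sq_nonneg A]
    have h7 : |A * C| + A ^ 2 + 1 ≤ x * (x + B) := by nlinarith [sq_nonneg A]
    linarith
  have hd : (!![x, -C; A, x + B] : Matrix (Fin 2) (Fin 2) ℤ).det = x * (x + B) + A * C := by
    rw [Matrix.det_fin_two_of]
    ring
  let m : PD := ⟨!![x, -C; A, x + B], by
    show 0 < (!![x, -C; A, x + B] : Matrix (Fin 2) (Fin 2) ℤ).det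
    rw [hd]
    nlinarith [sq_nonneg A]⟩
  have hfix : act m τ = τ := by
    rw [act_eq_iff]
    simp only [m, Matrix.of_apply, Matrix.cons_val', Matrix.cons_val_zero, Matrix.cons_val_one,
      Matrix.cons_val_fin_one]
    push_cast
    linear_combination h
  obtain ⟨l, k, n, hl, hn, h1, h2, h3, h4⟩ := mrel_of m τ
  refine ⟨l, ?_, ?_⟩
  · have h5 : n ∣ A := by
      have h6 : m.1 1 0 = (n • k.1) 1 0 := by rw [h1]
      have h7 : A = n * k.1 1 0 := by simpa [m] using h6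
      exact ⟨_, h7⟩
    have h6 : n ^ 2 ≤ A ^ 2 := by
      have := Int.le_of_dvd (by positivity) (pow_dvd_pow_of_dvd h5 2)
      exact this
    have h7 : m.1.det = n ^ 2 * l := by rw [h1, det_smul', h3]
    have h8 : m.1.det = x * (x + B) + A * C := hd
    by_contra hcon
    have h9 : l = 1 := by omega
    rw [h9] at h7
    push_cast at h7
    linarith
  · have := h4 τ
    rwa [hfix] at this

theorem quad_act {k : PD} {τ : ℍ} (h : Quad (act k τ)) : Quad τ := by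
  obtain ⟨A, B, C, hA, h⟩ := h
  have h1 := (act_eq_iff k τ _).mp rfl
  set σ := act k τ
  set a := k.1 0 0
  set b := k.1 0 1
  set c := k.1 1 0
  set d := k.1 1 1
  have hdet : 0 < a * d - b * c := by
    have := pd_pos k
    rw [Matrix.det_fin_two] at this
    exact this
  apply quad_of (A := A * a ^ 2 + B * a * c + C * c ^ 2)
    (B := 2 * A * a * b + B * (a * d + b * c) + 2 * C * c * d)
    (C := A * b ^ 2 + B * b * d + C * d ^ 2)
  · rintro ⟨h2, h3, h4⟩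
    have h5 : (a * d - b * c) ^ 2 * A = 0 := by
      linear_combination d ^ 2 * h2 - c * d * h3 + c ^ 2 * h4
    rcases mul_eq_zero.mp h5 with h6 | h6
    · exact hdet.ne' (pow_eq_zero_iff (by norm_num) |>.mp h6)
    · exact hA h6
  · push_cast
    have h2 : ((A * a ^ 2 + B * a * c + C * c ^ 2) * τ ^ 2 + (2 * A * a * b +
        B * (a * d + b * c) + 2 * C * c * d) * τ + (A * b ^ 2 + B * b * d + C * d ^ 2) : ℂ) =
        A * (a * τ + b) ^ 2 + B * (a * τ + b) * (c * τ + d) + C * (c * τ + d) ^ 2 := by ring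
    rw [h2, ← h1]
    linear_combination (c * τ + d) ^ 2 * h

theorem mrel_cm_trans {N M : ℕ} (hN : 0 < N) (hM : 1 < M) {x y : ℂ} (h : MRel N x y)
    (h' : MRel M x x) : ∃ l, 1 < l ∧ MRel l y y := by
  obtain ⟨τ, rfl⟩ := jf_surj y
  obtain ⟨f, ⟨k, hk, hkp, rfl⟩, rfl⟩ := (mrel_jf hN _ τ).mp h
  exact mrel_of_quad (quad_act (quad_of_mrel hM h'))

theorem rho_im : 0 < ((⟨-1 / 2, Real.sqrt 3 / 2⟩ : ℂ)).im := by
  show 0 < Real.sqrt 3 / 2
  positivity

/-- The third root of unity. -/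
noncomputable def rho : ℍ := ⟨⟨-1 / 2, Real.sqrt 3 / 2⟩, rho_im⟩

theorem rho_eq : (rho : ℂ) ^ 2 + rho + 1 = 0 := by
  have h : (rho : ℂ) = (⟨-1 / 2, Real.sqrt 3 / 2⟩ : ℂ) := rfl
  have h3 : Real.sqrt 3 * Real.sqrt 3 = 3 := Real.mul_self_sqrt (by norm_num)
  rw [h, sq]
  apply Complex.ext
  · simp
    nlinarith
  · simp
    ring

theorem jf_rho : jf rho = 0 := by
  let γ : SL(2, ℤ) := ⟨!![0, -1; 1, 1], by rw [Matrix.det_fin_two_of]; norm_num⟩
  have h1 : γ • rho = rho := by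
    rw [← act_sl, act_eq_iff]
    simp [γ, PD.sl_val]
    linear_combination rho_eq
  have h2 := form_smul E₄ γ rho
  rw [h1] at h2
  have h3 : (denom γ rho : ℂ) = rho + 1 := by
    simp [denom, γ]
  rw [h3] at h2
  have h4 : (((rho : ℂ) + 1) ^ (4 : ℤ) : ℂ) = -rho - 1 := by
    have : (((rho : ℂ) + 1) ^ (4 : ℤ) : ℂ) = ((rho : ℂ) + 1) ^ 4 := by norm_cast
    rw [this]
    linear_combination ((rho : ℂ) ^ 2 + 3 * rho + 2) * rho_eq
  rw [h4] at h2
  have h5 : ((rho : ℂ) + 2) * E₄ rho = 0 := by linear_combination h2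
  have h6 : (rho : ℂ) + 2 ≠ 0 := by
    intro h
    have h7 := congrArg Complex.im h
    simp at h7
    exact rho.im_pos.ne' h7
  have h7 := (mul_eq_zero.mp h5).resolve_left h6
  unfold jf
  rw [h7]
  simp

theorem sp_zero' : ∃ N : ℕ, 1 < N ∧ MRel N 0 0 := by
  have h : Quad rho := ⟨1, 1, 1, one_ne_zero, by
    push_cast
    linear_combination rho_eq⟩
  have h1 := mrel_of_quad h
  rwa [jf_rho] at h1

theorem jf_I : jf I ≠ 0 := by
  let γ : SL(2, ℤ) := ⟨!![0, -1; 1, 0], by rw [Matrix.det_fin_two_of]; norm_num⟩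
  have h1 : γ • I = I := by
    rw [← act_sl, act_eq_iff]
    simp [γ, PD.sl_val]
  have h2 := form_smul E₆ γ I
  rw [h1] at h2
  have h3 : (denom γ I : ℂ) = Complex.I := by
    simp [denom, γ]
  rw [h3] at h2
  have h4 : ((Complex.I) ^ (6 : ℤ) : ℂ) = -1 := by
    have : ((Complex.I) ^ (6 : ℤ) : ℂ) = (Complex.I ^ 2) ^ 3 := by
      rw [← pow_mul]
      norm_cast
    rw [this, Complex.I_sq]
    norm_num
  rw [h4] at h2
  have h5 : E₆ I = 0 := by linear_combination (1 / 2 : ℂ) * h2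
  have h6 := discriminant_eq_E₄_cube_sub_E₆_sq I
  rw [h5] at h6
  intro h7
  apply discriminant_ne_zero I
  have h8 := E4_cube I
  rw [h7] at h8
  rw [h6, h8]
  norm_num

theorem sp_ne' : ∃ c : ℂ, c ≠ 0 ∧ ∃ N : ℕ, 1 < N ∧ MRel N c c := by
  refine ⟨jf I, jf_I, mrel_of_quad ⟨1, 0, 1, one_ne_zero, ?_⟩⟩
  simp

end CM

end Pool.Agent.MP_dd1803_nt
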