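import Mathlib
import Pool.Agent.MP_dd1803_nt.Y.CM

open ModularForm UpperHalfPlane MatrixGroups Matrix Filter Topology Manifold

namespace Pool.Agent.MP_dd1803_nt

section Smith

/-- A linear form takes a value prime to `d`. -/
theorem exists_coprime_value {a b d : ℤ} (h : ∀ m : ℤ, m ∣ a → m ∣ b → m ∣ d → m ∣ 1)
    (hd : d ≠ 0) : ∃ x : ℤ, IsCoprime (a * x + b) d := by
  classical
  let S : Finset ℕ := d.natAbs.primeFactors.filter (fun p => ¬ (p : ℤ) ∣ b)
  refine ⟨∏ p ∈ S, (p : ℤ), ?_⟩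
  rw [Int.isCoprime_iff_gcd_eq_one]
  by_contra hcon
  obtain ⟨p, hp, hp1⟩ := Nat.exists_prime_and_dvd hcon
  have hpi : Prime (p : ℤ) := Nat.prime_iff_prime_int.mp hp
  have h1 : (p : ℤ) ∣ a * (∏ p ∈ S, (p : ℤ)) + b :=
    (Int.natCast_dvd_natCast.mpr hp1).trans (Int.gcd_dvd_left _ _)
  have h2 : (p : ℤ) ∣ d := (Int.natCast_dvd_natCast.mpr hp1).trans (Int.gcd_dvd_right _ _)
  by_cases h3 : (p : ℤ) ∣ b
  · have h4 : (p : ℤ) ∣ a * ∏ p ∈ S, (p : ℤ) := (Int.dvd_add_left h3).mp h1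
    rcases hpi.dvd_or_dvd h4 with h5 | h5
    · exact hpi.not_dvd_one (h _ h5 h3 h2)
    · rw [hpi.dvd_finsetProd_iff] at h5
      obtain ⟨q, hq, h6⟩ := h5
      rw [Finset.mem_filter, Nat.mem_primeFactors] at hq
      have h7 : p ∣ q := Int.natCast_dvd_natCast.mp h6
      have h8 : p = q := (Nat.prime_dvd_prime_iff_eq hp hq.1.1).mp h7
      rw [← h8] at hq
      exact hq.2 h3
  · have h4 : p ∈ S := by
      rw [Finset.mem_filter, Nat.mem_primeFactors]
      refine ⟨⟨hp, ?_, ?_⟩, h3⟩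
      · exact Int.natCast_dvd.mp h2
      · simpa using hd
    have h5 : (p : ℤ) ∣ ∏ p ∈ S, (p : ℤ) := Finset.dvd_prod_of_mem _ h4
    exact h3 ((Int.dvd_add_right (h5.mul_left a)).mp h1)

/-- The diagonal matrix with entries `N`, `1`. -/
def dg (N : ℕ) (hN : 0 < N) : PD := ⟨!![(N : ℤ), 0; 0, 1], by
  show 0 < (!![(N : ℤ), 0; 0, 1] : Matrix (Fin 2) (Fin 2) ℤ).det
  rw [Matrix.det_fin_two_of]
  simpa using hN⟩

theorem dg_det (N : ℕ) (hN : 0 < N) : (dg N hN).1.det = N := by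
  show (!![(N : ℤ), 0; 0, 1] : Matrix (Fin 2) (Fin 2) ℤ).det = N
  rw [Matrix.det_fin_two_of]
  simp

theorem dg_prim (N : ℕ) (hN : 0 < N) : Prim (dg N hN).1 := by
  intro m hm
  have := hm 1 1
  simpa [dg] using this

theorem coe_dg (N : ℕ) (hN : 0 < N) (τ : ℍ) : ((act (dg N hN) τ : ℍ) : ℂ) = N * τ := by
  rw [coe_act]
  simp [dg]

/-- The Smith normal form. -/
theorem smith {N : ℕ} (hN : 0 < N) {g : PD} (hg : g.1.det = N) (hp : Prim g.1) :
    ∃ γ₁ γ₂ : SL(2, ℤ), g = PD.sl γ₁ * dg N hN * PD.sl γ₂ := by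
  obtain ⟨h, h1, h2, h3, h4, h5, γ, h6⟩ := exists_upper g
  rw [hg] at h1
  have hhp : Prim h.1 := by
    rw [h6]
    exact hp.mul_left γ
  set a := h.1 0 0 with ha
  set b := h.1 0 1 with hb
  set d := h.1 1 1 with hd
  have hdet : a * d = N := by
    rw [← h1, Matrix.det_fin_two, h2]
    ring
  rw [prim_iff] at hhp
  obtain ⟨x, u, v, huv⟩ := exists_coprime_value (a := a) (b := b) (d := d)
    (fun m m1 m2 m3 => hhp m m1 m2 (by rw [h2]; exact dvd_zero _) m3) (by omega)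
  let A : SL(2, ℤ) := ⟨!![v, a * x + b; -u, d], by
    rw [Matrix.det_fin_two_of]
    linear_combination huv⟩
  let B : SL(2, ℤ) := ⟨!![1, x; 0, 1], by
    rw [Matrix.det_fin_two_of]
    ring⟩
  let C : SL(2, ℤ) := ⟨!![1, 0; -(u * a), 1], by
    rw [Matrix.det_fin_two_of]
    ring⟩
  have key : h * PD.sl (B * C) = PD.sl A * dg N hN := by
    apply Subtype.ext
    show h.1 * (!![1, x; 0, 1] * !![1, 0; -(u * a), 1]) =
      !![v, a * x + b; -u, d] * !![(N : ℤ), 0; 0, 1]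
    have hh : h.1 = !![a, b; 0, d] := by
      ext i j
      fin_cases i <;> fin_cases j <;> simp [ha, hb, hd, h2]
    rw [hh]
    ext i j
    fin_cases i <;> fin_cases j <;> simp [Matrix.mul_apply, Fin.sum_univ_two]
    · rw [← hdet]
      linear_combination (-a) * huv
    · rw [← hdet]
      ring
  refine ⟨γ⁻¹ * A, (B * C)⁻¹, ?_⟩
  have e1 : g = PD.sl γ⁻¹ * h := by
    rw [h6, ← mul_assoc, ← map_mul, inv_mul_cancel, map_one, one_mul]
  have e2 : h = PD.sl A * dg N hN * PD.sl (B * C)⁻¹ := by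
    rw [← key, mul_assoc, ← map_mul, mul_inv_cancel, map_one, mul_one]
  rw [e1, e2, map_mul]
  simp only [mul_assoc]

/-- The conjugates in terms of `τ ↦ j (N τ)`. -/
theorem FN_smith {N : ℕ} (hN : 0 < N) {f : ℍ → ℂ} (hf : f ∈ FN N) :
    ∃ γ : SL(2, ℤ), ∀ τ, f τ = jf (act (dg N hN) (γ • τ)) := by
  obtain ⟨g, hg, hp, rfl⟩ := hf
  obtain ⟨γ₁, γ₂, rfl⟩ := smith hN hg hp
  refine ⟨γ₂, fun τ => ?_⟩
  show jf (act (PD.sl γ₁ * dg N hN * PD.sl γ₂) τ) = _
  rw [mul_assoc, jf_act_sl, act_mul, act_sl]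

theorem mrel_iff_dg {N : ℕ} (hN : 0 < N) (x y : ℂ) : MRel N x y ↔
    ∃ τ : ℍ, jf (act (dg N hN) τ) = x ∧ jf τ = y := by
  constructor
  · intro h
    rw [mrel_iff hN] at h
    obtain ⟨g, τ, hg, hp, hy, hx⟩ := h
    obtain ⟨γ₁, γ₂, rfl⟩ := smith hN hg hp
    refine ⟨γ₂ • τ, ?_, ?_⟩
    · rw [← hx, mul_assoc, jf_act_sl, act_mul, act_sl]
    · rw [jf_smul, hy]
  · rintro ⟨τ, hx, hy⟩
    rw [mrel_iff hN]
    exact ⟨dg N hN, τ, dg_det N hN, dg_prim N hN, hy, hx⟩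

/-- `j (τ)` is not equal to `j (M τ)` for `M > 1`. -/
theorem jf_ne_mul {M : ℕ} (hM : 1 < M) : ¬ ∀ τ, jf (act (dg M (by omega)) τ) = jf τ := by
  intro h
  have h0 : (dg M (by omega)).1 1 0 = 0 := by simp [dg]
  have h1 := tendsto_jf_act h0
  have h2 := tendsto_jf
  have h3 := h1.div h2 one_ne_zero
  rw [div_one] at h3
  have h4 : Tendsto (fun τ : ℍ => ‖qq (act (dg M (by omega)) τ) / qq τ‖) atImInfty (𝓝 1) := by
    have h5 := h3.norm
    rw [norm_one] at h5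
    refine h5.congr' ?_
    have h6 : ∀ᶠ τ : ℍ in atImInfty, jf τ ≠ 0 := by
      have := h2.eventually_ne one_ne_zero
      filter_upwards [this] with τ hτ h7
      rw [h7, zero_mul] at hτ
      exact hτ rfl
    filter_upwards [h6] with τ hτ
    congr 1
    show jf (act (dg M _) τ) * qq (act (dg M _) τ) / (jf τ * qq τ) = _
    rw [h τ]
    have := qq_ne_zero τ
    field_simp
  have h5 : Tendsto (fun τ : ℍ => ‖qq (act (dg M (by omega)) τ) / qq τ‖) atImInfty (𝓝 0) := by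
    have h6 : (fun τ : ℍ => ‖qq (act (dg M (by omega)) τ) / qq τ‖) =
        fun τ : ℍ => Real.exp (-(2 * Real.pi * ((M : ℝ) - 1) * τ.im)) := by
      funext τ
      rw [norm_div, norm_qq, norm_qq, im_act_upper h0, ← Real.exp_sub]
      congr 1
      simp [dg]
      ring
    rw [h6]
    apply Real.tendsto_exp_neg_atTop_nhds_zero.comp
    have h7 : (1 : ℝ) < M := by exact_mod_cast hM
    exact Tendsto.const_mul_atTop (by
      have := Real.pi_pos
      have : 0 < (M : ℝ) - 1 := by linarith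
      positivity) tendsto_comap
  exact one_ne_zero (tendsto_nhds_unique h4 h5)

theorem mrel_graph {N : ℕ} (hN : 0 < N) (p : Polynomial ℂ) (h : ∀ x, MRel N x (p.eval x)) :
    N = 1 := by
  classical
  -- one of the conjugates equals `p ∘ j`
  have hpj : MDiff (fun τ : ℍ => p.eval (jf τ)) := by
    have h1 : MDiff ((fun z : ℂ => p.eval z) ∘ (jf : ℍ → ℂ)) := by
      apply MDifferentiable.comp (I' := 𝓘(ℂ)) _ mdiff_jf
      rw [mdifferentiable_iff_differentiable]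
      exact p.differentiable
    exact h1
  obtain ⟨f, hf, hfe⟩ : ∃ f ∈ SN N, (fun τ => p.eval (jf τ)) = f := by
    have h1 : ∏ f ∈ SN N, ((fun τ => p.eval (jf τ)) - f) = 0 := by
      funext τ
      rw [Finset.prod_apply, Pi.zero_apply, Finset.prod_eq_zero_iff]
      obtain ⟨f, hf, h2⟩ := (mrel_jf hN _ τ).mp (mrel_symm hN (h (jf τ)))
      refine ⟨f, mem_SN.mpr hf, ?_⟩
      show p.eval (jf τ) - f τ = 0
      rw [h2, sub_self]
    rw [UpperHalfPlane.prod_eq_zero_iff] at h1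
    · obtain ⟨f, hf, h2⟩ := h1
      exact ⟨f, hf, sub_eq_zero.mp h2⟩
    · intro f hf
      exact hpj.sub (FN_mdiff (mem_SN.mp hf))
  obtain ⟨γ, hγ⟩ := FN_smith hN (mem_SN.mp hf)
  have h2 : ∀ τ : ℍ, jf (act (dg N hN) τ) = p.eval (jf τ) := by
    intro τ
    have h3 := hγ (γ⁻¹ • τ)
    rw [smul_inv_smul, ← hfe] at h3
    simp only [jf_smul] at h3
    exact h3.symm
  -- compare `N τ` and `τ / N`
  by_contra hcon
  have hN1 : 1 < N := by omega
  have hM : 1 < N * N := by nlinarith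
  apply jf_ne_mul hM
  intro τ
  -- `τ = N σ`... use `S`
  let S : SL(2, ℤ) := ⟨!![0, -1; 1, 0], by rw [Matrix.det_fin_two_of]; norm_num⟩
  have h3 : ∀ σ : ℍ, jf (act (dg N hN) (S • σ)) = jf (act (dg N hN) σ) := by
    intro σ
    rw [h2, h2, jf_smul]
  have h4 := h3 (act (dg N hN) τ)
  have h5 : act (dg N hN) (S • (act (dg N hN) τ)) = S • τ := by
    rw [← act_sl, ← act_sl, act_eq_iff, coe_act, coe_act]
    rw [coe_dg]
    have h6 : (τ : ℂ) ≠ 0 := ne_zero τ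
    have h7 : (N : ℂ) ≠ 0 := by exact_mod_cast hN.ne'
    simp [S, PD.sl_val, dg]
    field_simp
  rw [h5, jf_smul] at h4
  have h6 : act (dg N hN) (act (dg N hN) τ) = act (dg (N * N) (by omega)) τ := by
    apply UpperHalfPlane.ext
    rw [coe_dg, coe_dg, coe_dg]
    push_cast
    ring
  rw [h6] at h4
  exact h4.symm

theorem mrel_fin_diag {N : ℕ} (hN : 1 < N) : {x | MRel N x x}.Finite := by
  have hN0 : 0 < N := by omega
  obtain ⟨P, hP⟩ := exists_coeffs N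
  let R : Polynomial ℂ := ∑ k ∈ Finset.range ((SN N).card + 1), P k * Polynomial.X ^ k
  have hR : ∀ τ, R.eval (jf τ) = ∏ f ∈ SN N, (jf τ - f τ) := by
    intro τ
    have h1 : ∏ f ∈ SN N, (jf τ - f τ) =
        (∏ f ∈ SN N, (Polynomial.X - Polynomial.C (f τ))).eval (jf τ) := by
      rw [Polynomial.eval_prod]
      simp
    have h2 : (∏ f ∈ SN N, (Polynomial.X - Polynomial.C (f τ))).natDegree < (SN N).card + 1 := by
      rw [Polynomial.natDegree_prod_of_monic _ _ (fun f _ => Polynomial.monic_X_sub_C _)]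
      simp
    rw [h1, Polynomial.eval_eq_sum_range' h2, Polynomial.eval_finsetSum]
    apply Finset.sum_congr rfl
    intro k _
    rw [hP]
    simp
  have hR' : ∀ x, MRel N x x ↔ R.eval x = 0 := by
    intro x
    obtain ⟨τ, rfl⟩ := jf_surj x
    rw [mrel_jf hN0, hR, Finset.prod_eq_zero_iff]
    constructor
    · rintro ⟨f, hf, h⟩
      exact ⟨f, mem_SN.mpr hf, sub_eq_zero.mpr h⟩
    · rintro ⟨f, hf, h⟩
      exact ⟨f, mem_SN.mp hf, sub_eq_zero.mp h⟩
  have hR0 : R ≠ 0 := by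
    intro h0
    have h1 : N = 1 := mrel_graph hN0 Polynomial.X (fun x => by
      rw [Polynomial.eval_X, hR', h0, Polynomial.eval_zero])
    omega
  apply (R.rootSet_finite ℂ).subset
  intro x hx
  rw [Polynomial.mem_rootSet]
  refine ⟨hR0, ?_⟩
  rw [Polynomial.coe_aeval_eq_eval]
  exact (hR' x).mp hx

end Smith

end Pool.Agent.MP_dd1803_nt
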