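import Mathlib
import Pool.Agent.MP_dd1803_nt.Y.Smith
import Pool.Agent.MP_dd1803_nt.Aff.Dim

open ModularForm UpperHalfPlane MatrixGroups Matrix Filter Topology Manifold
open Pool.Agent.MP_dd1803_nt.Aff (ZClosed PIrr Irr)

namespace Pool.Agent.MP_dd1803_nt

section Geom

variable {κ : Type}

/-- The modular curve in affine space. -/
noncomputable def mc (g : κ → PD) (τ : ℍ) : κ → ℂ := fun i => jf (act (g i) τ)

theorem mdiff_eval (g : κ → PD) (p : MvPolynomial κ ℂ) :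
    MDiff (fun τ => MvPolynomial.eval (mc g τ) p) := by
  induction p using MvPolynomial.induction_on with
  | C a =>
    simp only [MvPolynomial.eval_C]
    exact mdifferentiable_const
  | add p q hp hq =>
    simp only [map_add]
    exact hp.add hq
  | mul_X p i hp =>
    simp only [map_mul, MvPolynomial.eval_X]
    exact hp.mul (mdiff_act mdiff_jf (g i))

theorem pirr_mc (g : κ → PD) : PIrr (Set.range (mc g)) := by
  refine ⟨⟨mc g I, I, rfl⟩, ?_⟩
  rintro A B ⟨S, rfl⟩ ⟨S', rfl⟩ h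
  by_contra hcon
  push Not at hcon
  obtain ⟨h1, h2⟩ := hcon
  rw [Set.not_subset] at h1 h2
  obtain ⟨_, ⟨τ1, rfl⟩, h3⟩ := h1
  obtain ⟨_, ⟨τ2, rfl⟩, h4⟩ := h2
  simp only [Set.mem_ofPred_eq, not_forall] at h3 h4
  obtain ⟨p, hp, h5⟩ := h3
  obtain ⟨q, hq, h6⟩ := h4
  have h7 : (fun τ => MvPolynomial.eval (mc g τ) p) * (fun τ => MvPolynomial.eval (mc g τ) q)
      = 0 := by
    funext τ
    rcases h ⟨τ, rfl⟩ with h8 | h8
    · show MvPolynomial.eval (mc g τ) p * MvPolynomial.eval (mc g τ) q = 0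
      rw [h8 p hp, zero_mul]
    · show MvPolynomial.eval (mc g τ) p * MvPolynomial.eval (mc g τ) q = 0
      rw [h8 q hq, mul_zero]
  rcases (UpperHalfPlane.mul_eq_zero_iff (mdiff_eval g p) (mdiff_eval g q)).mp h7 with h8 | h8
  · exact h5 (congrFun h8 τ1)
  · exact h6 (congrFun h8 τ2)

theorem mrel_geom (κ : Type) [Finite κ] [Nonempty κ] (p : κ → ℂ)
    (h1 : ∀ i k, ∃ N, 0 < N ∧ MRel N (p i) (p k))
    (h2 : ∀ i, ¬ ∃ N, 1 < N ∧ MRel N (p i) (p i)) :
    ∃ T : Set (κ → ℂ), Irr T ∧ p ∈ T ∧ (∃ q ∈ T, q ≠ p) ∧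
      ∀ N, 0 < N → ∀ i k, MRel N (p i) (p k) → ∀ x ∈ T, MRel N (x i) (x k) := by
  obtain ⟨i0⟩ := ‹Nonempty κ›
  obtain ⟨τ0, hτ0⟩ := jf_surj (p i0)
  have hg : ∀ i, ∃ g : PD, p i = jf (act g τ0) := by
    intro i
    obtain ⟨N, hN, h3⟩ := h1 i i0
    rw [← hτ0] at h3
    obtain ⟨f, ⟨g, _, _, rfl⟩, h4⟩ := (mrel_jf hN _ τ0).mp h3
    exact ⟨g, h4⟩
  choose g hg using hg
  have hp : p = mc g τ0 := by
    funext i
    exact hg i
  refine ⟨Aff.cl ℂ (Set.range (mc g)), (pirr_mc g).cl, ?_, ?_, ?_⟩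
  · exact Aff.subset_cl _ ⟨τ0, hp.symm⟩
  · obtain ⟨σ, hσ⟩ := jf_surj (p i0 + 1)
    refine ⟨mc g (act (adjP (g i0)) σ), Aff.subset_cl _ ⟨_, rfl⟩, ?_⟩
    intro h3
    have h4 := congrFun h3 i0
    unfold mc at h4
    rw [act_adj', hσ] at h4
    simp at h4
  · intro N hN i k h3
    obtain ⟨P, hP⟩ := mrel_poly hN
    have hcl : ZClosed {x : κ → ℂ | MRel N (x i) (x k)} := by
      refine ⟨{MvPolynomial.rename ![i, k] P}, ?_⟩
      ext x
      simp only [Set.mem_ofPred_eq, Set.mem_singleton_iff, forall_eq]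
      rw [hP, MvPolynomial.eval_rename, MvPolynomial.aeval_def, MvPolynomial.eval,
        MvPolynomial.coe_eval₂Hom]
      have h : x ∘ ![i, k] = ![x i, x k] := by
        funext l
        fin_cases l <;> rfl
      rw [h]
      rfl
    apply Aff.cl_subset _ hcl
    rintro _ ⟨τ, rfl⟩
    show MRel N (jf (act (g i) τ)) (jf (act (g k) τ))
    obtain ⟨l, k', n, hl, hn, e1, e2, e3, e4⟩ := mrel_of (g i * adjP (g k)) I
    have e5 : ∀ τ, MRel l (jf (act (g i) τ)) (jf (act (g k) τ)) := by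
      intro τ
      have := e4 (act (g k) τ)
      rwa [act_mul, act_adj] at this
    by_cases hlN : N = l
    · rw [hlN]
      exact e5 τ
    · exfalso
      have e6 := e5 τ0
      rw [← hg, ← hg] at e6
      obtain ⟨m, hm, _, e7⟩ := mrel_cm' hN hl hlN h3 e6
      exact h2 i ⟨m, hm, e7⟩

end Geom

end Pool.Agent.MP_dd1803_nt
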