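import Mathlib
import Pool.Agent.MP_dd1803_nt.Y.Smith
import Pool.Agent.MP_dd1803_nt.Aff.Struct

open ModularForm UpperHalfPlane MatrixGroups Matrix Filter Topology Manifold

namespace Pool.Agent.MP_dd1803_nt

section RatQ

/-- Functions with a rational `q`-expansion. -/
def RQ (f : ℍ → ℂ) : Prop :=
  ∃ a : ℕ → ℚ, ∀ τ : ℍ, HasSum (fun n => (a n : ℂ) * qq τ ^ n) (f τ)

theorem RQ.const (c : ℚ) : RQ (fun _ => (c : ℂ)) := by
  refine ⟨fun n => if n = 0 then c else 0, fun τ => ?_⟩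
  have h : (fun n : ℕ => (((if n = 0 then c else 0 : ℚ)) : ℂ) * qq τ ^ n) =
      fun n : ℕ => if n = 0 then (c : ℂ) else 0 := by
    funext n
    by_cases hn : n = 0
    · subst hn; simp
    · simp [hn]
  rw [h]
  exact hasSum_ite_eq 0 (c : ℂ)

theorem RQ.add {f g : ℍ → ℂ} (hf : RQ f) (hg : RQ g) : RQ (fun τ => f τ + g τ) := by
  obtain ⟨a, ha⟩ := hf
  obtain ⟨b, hb⟩ := hg
  refine ⟨fun n => a n + b n, fun τ => ?_⟩
  have h := (ha τ).add (hb τ)
  refine h.congr_fun fun n => ?_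
  push_cast
  ring

theorem RQ.mul {f g : ℍ → ℂ} (hf : RQ f) (hg : RQ g) : RQ (fun τ => f τ * g τ) := by
  obtain ⟨a, ha⟩ := hf
  obtain ⟨b, hb⟩ := hg
  refine ⟨fun n => ∑ p ∈ Finset.HasAntidiagonal.antidiagonal n, a p.1 * b p.2, fun τ => ?_⟩
  have h1 := (ha τ).summable.norm
  have h2 := (hb τ).summable.norm
  have h3 := summable_norm_sum_mul_antidiagonal_of_summable_norm h1 h2
  have h4 := tsum_mul_tsum_eq_tsum_sum_antidiagonal_of_summable_norm h1 h2
  rw [(ha τ).tsum_eq, (hb τ).tsum_eq] at h4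
  have h5 := h3.of_norm.hasSum
  rw [← h4] at h5
  have h6 : (fun n : ℕ => ((∑ p ∈ Finset.HasAntidiagonal.antidiagonal n, a p.1 * b p.2 : ℚ) : ℂ) * qq τ ^ n) =
      fun n : ℕ => ∑ kl ∈ Finset.HasAntidiagonal.antidiagonal n, (a kl.1 : ℂ) * qq τ ^ kl.1 *
        ((b kl.2 : ℂ) * qq τ ^ kl.2) := by
    funext n
    push_cast
    rw [Finset.sum_mul]
    apply Finset.sum_congr rfl
    intro p hp
    rw [← Finset.HasAntidiagonal.mem_antidiagonal.mp hp, pow_add]
    ring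
  rw [h6]
  exact h5

theorem RQ.smul {f : ℍ → ℂ} (c : ℚ) (hf : RQ f) : RQ (fun τ => (c : ℂ) * f τ) :=
  (RQ.const c).mul hf

theorem RQ.pow {f : ℍ → ℂ} (hf : RQ f) (n : ℕ) : RQ (fun τ => f τ ^ n) := by
  induction n with
  | zero =>
    have h := RQ.const 1
    simpa using h
  | succ n ih =>
    have h := ih.mul hf
    simpa [pow_succ] using h

theorem qq_dg {N : ℕ} (hN : 0 < N) (τ : ℍ) : qq (act (dg N hN) τ) = qq τ ^ N := by
  rw [qq_eq, qq_eq, ← Complex.exp_nat_mul, coe_dg]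
  congr 1
  ring

theorem RQ.dg {f : ℍ → ℂ} (hf : RQ f) {N : ℕ} (hN : 0 < N) :
    RQ (fun τ => f (act (dg N hN) τ)) := by
  obtain ⟨a, ha⟩ := hf
  refine ⟨fun m => if N ∣ m then a (m / N) else 0, fun τ => ?_⟩
  have h1 := ha (act (MP_dd1803_nt.dg N hN) τ)
  have hinj : Function.Injective (fun n : ℕ => N * n) := fun x y h => Nat.eq_of_mul_eq_mul_left hN h
  rw [← hinj.hasSum_iff]
  · refine h1.congr_fun fun n => ?_
    simp only [Function.comp_apply]
    rw [if_pos (dvd_mul_right N n), Nat.mul_div_cancel_left n hN, qq_dg, ← pow_mul]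
  · intro m hm
    have : ¬ N ∣ m := by
      rintro ⟨n, rfl⟩
      exact hm ⟨n, rfl⟩
    simp [this]

theorem RQ.E {k : ℕ} (hk : 3 ≤ k) (hk2 : Even k) : RQ (fun τ => ModularForm.E hk τ) := by
  refine ⟨fun m => if m = 0 then 1 else -(2 * k / bernoulli k) *
    (ArithmeticFunction.sigma (k - 1) m : ℚ), fun τ => ?_⟩
  have h := ModularForm.hasSum_qExpansion (f := ModularForm.E hk) one_pos
    one_mem_strictPeriods_SL τ
  refine h.congr_fun fun n => ?_
  rw [EisensteinSeries.E_qExpansion_coeff hk hk2]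
  have : (((if n = 0 then 1 else -(2 * k / bernoulli k) *
    (ArithmeticFunction.sigma (k - 1) n : ℚ)) : ℚ) : ℂ) = if n = 0 then 1 else
      -(2 * k / bernoulli k : ℂ) * (ArithmeticFunction.sigma (k - 1) n) := by
    split_ifs
    · simp
    · push_cast
      rfl
  simp only
  rw [this]
  rfl

theorem RQ.E4 : RQ (fun τ => E₄ τ) := RQ.E _ ⟨2, rfl⟩

theorem RQ.E6 : RQ (fun τ => E₆ τ) := RQ.E _ ⟨3, rfl⟩

theorem RQ.disc : RQ (fun τ => ModularForm.discriminant τ) := by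
  have h := ((RQ.E4.pow 3).add ((RQ.E6.pow 2).smul (-1))).smul (1 / 1728)
  have h2 : (fun τ => ModularForm.discriminant τ) = fun τ : ℍ =>
      ((1 / 1728 : ℚ) : ℂ) * (E₄ τ ^ 3 + ((-1 : ℚ) : ℂ) * E₆ τ ^ 2) := by
    funext τ
    rw [discriminant_eq_E₄_cube_sub_E₆_sq]
    push_cast
    ring
  rw [h2]
  exact h

/-- Uniqueness of `q`-expansions. -/
theorem coeff_zero {c : ℕ → ℂ} (h : ∀ τ : ℍ, HasSum (fun n => c n * qq τ ^ n) 0) (n : ℕ) :
    c n = 0 := by
  have h1 := ModularFormClass.qExpansion_coeff_unique (f := (0 : ModularForm 𝒮ℒ 12)) (c := c)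
    one_pos one_mem_strictPeriods_SL (fun τ => h τ) n
  rw [h1]
  have h2 : qExpansion 1 (0 : ModularForm 𝒮ℒ 12) = 0 := qExpansion_zero 1
  rw [h2]
  simp

/-- Relations between functions with rational `q`-expansions are combinations of rational
relations. -/
theorem rational_relation {ι : Type} (S : Finset ι) (c : ι → ℂ) (G : ι → ℍ → ℂ)
    (hG : ∀ i ∈ S, RQ (G i)) (h : ∀ τ, ∑ i ∈ S, c i * G i τ = 0) (φ : ℂ →ₗ[ℚ] ℚ) (τ : ℍ) :
    ∑ i ∈ S, (φ (c i) : ℂ) * G i τ = 0 := by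
  classical
  have hG' : ∀ i, ∃ a : ℕ → ℚ, i ∈ S → ∀ τ : ℍ, HasSum (fun n => (a n : ℂ) * qq τ ^ n) (G i τ) := by
    intro i
    by_cases hi : i ∈ S
    · obtain ⟨a, ha⟩ := hG i hi
      exact ⟨a, fun _ => ha⟩
    · exact ⟨0, fun h => absurd h hi⟩
  choose a ha using hG'
  have h1 : ∀ n, ∑ i ∈ S, c i * (a i n : ℂ) = 0 := by
    intro n
    apply coeff_zero (c := fun n => ∑ i ∈ S, c i * (a i n : ℂ))
    intro τ
    have h2 := hasSum_sum (f := fun i n => c i * ((a i n : ℂ) * qq τ ^ n))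
      (fun i (hi : i ∈ S) => (ha i hi τ).mul_left (c i))
    rw [h τ] at h2
    refine h2.congr_fun fun n => ?_
    rw [Finset.sum_mul]
    apply Finset.sum_congr rfl
    intro i _
    ring
  have h3 : ∀ n, ∑ i ∈ S, (φ (c i) : ℂ) * (a i n : ℂ) = 0 := by
    intro n
    have h4 := congrArg φ (h1 n)
    rw [map_sum, map_zero] at h4
    have h5 : ∑ i ∈ S, φ (c i) * a i n = 0 := by
      rw [← h4]
      apply Finset.sum_congr rfl
      intro i _
      have h6 : c i * (a i n : ℂ) = (a i n) • c i := by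
        rw [Algebra.smul_def, mul_comm]
        rfl
      rw [h6, map_smul, smul_eq_mul, mul_comm]
    have h6 := congrArg (fun q : ℚ => (q : ℂ)) h5
    push_cast at h6
    exact h6
  have h7 := hasSum_sum (f := fun i n => (φ (c i) : ℂ) * ((a i n : ℂ) * qq τ ^ n))
    (fun i (hi : i ∈ S) => (ha i hi τ).mul_left (φ (c i) : ℂ))
  have h8 : (fun n => ∑ i ∈ S, (φ (c i) : ℂ) * ((a i n : ℂ) * qq τ ^ n)) = fun n => 0 := by
    funext n
    have : ∑ i ∈ S, (φ (c i) : ℂ) * ((a i n : ℂ) * qq τ ^ n) =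
        (∑ i ∈ S, (φ (c i) : ℂ) * (a i n : ℂ)) * qq τ ^ n := by
      rw [Finset.sum_mul]
      apply Finset.sum_congr rfl
      intro i _
      ring
    rw [this, h3, zero_mul]
  rw [h8] at h7
  exact h7.unique hasSum_zero

theorem aeval_two {k : Type} [Field k] [Algebra k ℂ] (Q : MvPolynomial (Fin 2) k)
    (S : Finset (Fin 2 →₀ ℕ)) (hS : Q.support ⊆ S) (x y : ℂ) :
    MvPolynomial.aeval ![x, y] Q =
      ∑ m ∈ S, algebraMap k ℂ (MvPolynomial.coeff m Q) * (x ^ m 0 * y ^ m 1) := by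
  rw [MvPolynomial.aeval_def, MvPolynomial.eval₂_eq']
  rw [Finset.sum_subset hS]
  · apply Finset.sum_congr rfl
    intro m _
    rw [Fin.prod_univ_two]
    rfl
  · intro m _ hm
    rw [MvPolynomial.notMem_support_iff.mp hm, map_zero, zero_mul]

/-- Rational components of the relations between `j (N τ)` and `j (τ)`. -/
theorem cmpl_modular {N : ℕ} (hN : 0 < N) (P : MvPolynomial (Fin 2) ℂ)
    (h : ∀ τ, MvPolynomial.aeval ![jf (act (dg N hN) τ), jf τ] P = 0) (φ : ℂ →ₗ[ℚ] ℚ) (τ : ℍ) :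
    MvPolynomial.aeval ![jf (act (dg N hN) τ), jf τ] (Aff.cmpl φ P) = 0 := by
  classical
  let D : ℕ := P.support.sup (fun m => m 0) + P.support.sup (fun m => m 1)
  have hD0 : ∀ m ∈ P.support, m 0 ≤ D := fun m hm =>
    (Finset.le_sup (f := fun m : Fin 2 →₀ ℕ => m 0) hm).trans (Nat.le_add_right _ _)
  have hD1 : ∀ m ∈ P.support, m 1 ≤ D := fun m hm =>
    (Finset.le_sup (f := fun m : Fin 2 →₀ ℕ => m 1) hm).trans (Nat.le_add_left _ _)
  let G : (Fin 2 →₀ ℕ) → ℍ → ℂ := fun m τ =>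
    ((E₄ (act (dg N hN) τ) ^ 3) ^ m 0 * ModularForm.discriminant (act (dg N hN) τ) ^ (D - m 0)) *
      ((E₄ τ ^ 3) ^ m 1 * ModularForm.discriminant τ ^ (D - m 1))
  have hG : ∀ m, RQ (G m) := by
    intro m
    have h1 := ((((RQ.E4.pow 3).pow (m 0)).mul (RQ.disc.pow (D - m 0))).dg hN).mul
      (((RQ.E4.pow 3).pow (m 1)).mul (RQ.disc.pow (D - m 1)))
    exact h1
  have hGe : ∀ m ∈ P.support, ∀ τ, (ModularForm.discriminant (act (dg N hN) τ) ^ D *
      ModularForm.discriminant τ ^ D) * (jf (act (dg N hN) τ) ^ m 0 * jf τ ^ m 1) = G m τ := by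
    intro m hm τ
    simp only [G]
    rw [E4_cube, E4_cube]
    have e0 : D = m 0 + (D - m 0) := (Nat.add_sub_cancel' (hD0 m hm)).symm
    have e1 : D = m 1 + (D - m 1) := (Nat.add_sub_cancel' (hD1 m hm)).symm
    have e2 : ModularForm.discriminant (act (dg N hN) τ) ^ D =
        ModularForm.discriminant (act (dg N hN) τ) ^ m 0 *
        ModularForm.discriminant (act (dg N hN) τ) ^ (D - m 0) := by
      rw [← pow_add, ← e0]
    have e3 : ModularForm.discriminant τ ^ D = ModularForm.discriminant τ ^ m 1 *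
        ModularForm.discriminant τ ^ (D - m 1) := by
      rw [← pow_add, ← e1]
    rw [e2, e3, mul_pow, mul_pow]
    ring
  have key : ∀ τ, ∑ m ∈ P.support, MvPolynomial.coeff m P * G m τ = 0 := by
    intro τ
    have h1 := h τ
    rw [aeval_two P P.support subset_rfl] at h1
    have h2 : ∑ m ∈ P.support, MvPolynomial.coeff m P * G m τ =
        (ModularForm.discriminant (act (dg N hN) τ) ^ D * ModularForm.discriminant τ ^ D) *
        ∑ m ∈ P.support, algebraMap ℂ ℂ (MvPolynomial.coeff m P) *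
          (jf (act (dg N hN) τ) ^ m 0 * jf τ ^ m 1) := by
      rw [Finset.mul_sum]
      apply Finset.sum_congr rfl
      intro m hm
      rw [← hGe m hm τ]
      simp only [Algebra.algebraMap_self, RingHom.id_apply]
      ring
    rw [h2, h1, mul_zero]
  have h1 := rational_relation P.support (fun m => MvPolynomial.coeff m P) G (fun m _ => hG m)
    key φ τ
  have hsub : (Aff.cmpl φ P).support ⊆ P.support := by
    intro m hm
    rw [MvPolynomial.mem_support_iff, Aff.coeff_cmpl] at hm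
    rw [MvPolynomial.mem_support_iff]
    intro h0
    rw [h0, map_zero] at hm
    exact hm rfl
  rw [aeval_two _ P.support hsub]
  have h2 : ∑ m ∈ P.support, (φ (MvPolynomial.coeff m P) : ℂ) * G m τ =
      (ModularForm.discriminant (act (dg N hN) τ) ^ D * ModularForm.discriminant τ ^ D) *
      ∑ m ∈ P.support, algebraMap ℚ ℂ (MvPolynomial.coeff m (Aff.cmpl φ P)) *
        (jf (act (dg N hN) τ) ^ m 0 * jf τ ^ m 1) := by
    rw [Finset.mul_sum]
    apply Finset.sum_congr rfl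
    intro m hm
    rw [← hGe m hm τ, Aff.coeff_cmpl]
    have : algebraMap ℚ ℂ (φ (MvPolynomial.coeff m P)) = (φ (MvPolynomial.coeff m P) : ℂ) := rfl
    rw [this]
    ring
  rw [h2] at h1
  refine (mul_eq_zero.mp h1).resolve_left ?_
  exact mul_ne_zero (pow_ne_zero _ (discriminant_ne_zero _)) (pow_ne_zero _ (discriminant_ne_zero _))

theorem zclosed_mrel {N : ℕ} (hN : 0 < N) :
    Aff.ZClosed {z : Fin 2 → ℂ | MRel N (z 0) (z 1)} := by
  obtain ⟨P, hP⟩ := mrel_poly hN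
  refine ⟨{P}, ?_⟩
  ext x
  simp only [Set.mem_ofPred_eq, Set.mem_singleton_iff, forall_eq]
  rw [hP]
  have h : x = ![x 0, x 1] := by
    funext l
    fin_cases l <;> rfl
  rw [MvPolynomial.aeval_def, MvPolynomial.eval, MvPolynomial.coe_eval₂Hom, ← h]
  rfl

theorem mrel_defd {N : ℕ} (hN : 0 < N) :
    Aff.cl (acl (∅ : Set ℂ)) {z : Fin 2 → ℂ | MRel N (z 0) (z 1)} =
      {z : Fin 2 → ℂ | MRel N (z 0) (z 1)} := by
  apply Set.Subset.antisymm _ (Aff.subset_cl _)
  intro x hx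
  have hx1 := Aff.cl_tower ℚ (acl (∅ : Set ℂ)) _ hx
  rw [← Aff.cl_eq_self (zclosed_mrel hN)]
  intro P hP
  apply Aff.aeval_eq_zero_of_cmpl (k := ℚ)
  intro φ
  apply hx1
  rw [SetLike.mem_coe, Aff.mem_vI]
  intro z hz
  have hz' : MRel N (z 0) (z 1) := hz
  rw [mrel_iff_dg hN] at hz'
  obtain ⟨τ, h1, h2⟩ := hz'
  have hz2 : Aff.co z = ![jf (act (dg N hN) τ), jf τ] := by
    funext l
    fin_cases l
    · exact h1.symm
    · exact h2.symm
  rw [hz2]
  apply cmpl_modular hN P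
  intro σ
  rw [SetLike.mem_coe, Aff.mem_vI] at hP
  exact hP ![jf (act (dg N hN) σ), jf σ] ((mrel_iff_dg hN _ _).mpr ⟨σ, rfl, rfl⟩)

end RatQ

end Pool.Agent.MP_dd1803_nt
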