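import Mathlib
import Pool.Agent.MP_dd1803_nt.Y.Smith

open ModularForm UpperHalfPlane MatrixGroups Matrix Filter Topology Manifold

namespace Pool.Agent.MP_dd1803_nt

section Two

def m1 : PD := ⟨!![2, 0; 0, 1], by
  show 0 < (!![(2 : ℤ), 0; 0, 1] : Matrix (Fin 2) (Fin 2) ℤ).det
  rw [Matrix.det_fin_two_of]; norm_num⟩

def m2 : PD := ⟨!![1, 0; 0, 2], by
  show 0 < (!![(1 : ℤ), 0; 0, 2] : Matrix (Fin 2) (Fin 2) ℤ).det
  rw [Matrix.det_fin_two_of]; norm_num⟩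

def m3 : PD := ⟨!![1, 1; 0, 2], by
  show 0 < (!![(1 : ℤ), 1; 0, 2] : Matrix (Fin 2) (Fin 2) ℤ).det
  rw [Matrix.det_fin_two_of]; norm_num⟩

noncomputable def f1 : ℍ → ℂ := fun τ => jf (act m1 τ)
noncomputable def f2 : ℍ → ℂ := fun τ => jf (act m2 τ)
noncomputable def f3 : ℍ → ℂ := fun τ => jf (act m3 τ)

theorem f1_mem : f1 ∈ FN 2 := by
  refine ⟨m1, ?_, ?_, rfl⟩
  · show (!![(2 : ℤ), 0; 0, 1] : Matrix (Fin 2) (Fin 2) ℤ).det = _
    rw [Matrix.det_fin_two_of]; norm_num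
  · intro m hm
    simpa [m1] using hm 1 1

theorem f2_mem : f2 ∈ FN 2 := by
  refine ⟨m2, ?_, ?_, rfl⟩
  · show (!![(1 : ℤ), 0; 0, 2] : Matrix (Fin 2) (Fin 2) ℤ).det = _
    rw [Matrix.det_fin_two_of]; norm_num
  · intro m hm
    simpa [m2] using hm 0 0

theorem f3_mem : f3 ∈ FN 2 := by
  refine ⟨m3, ?_, ?_, rfl⟩
  · show (!![(1 : ℤ), 1; 0, 2] : Matrix (Fin 2) (Fin 2) ℤ).det = _
    rw [Matrix.det_fin_two_of]; norm_num
  · intro m hm
    simpa [m3] using hm 0 0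

theorem FN_two {f : ℍ → ℂ} (hf : f ∈ FN 2) : f = f1 ∨ f = f2 ∨ f = f3 := by
  obtain ⟨h, h1, _, h2, h3, h4, h5, rfl⟩ := exists_upper_FN hf
  have h6 : h.1 0 0 * h.1 1 1 = 2 := by
    have : h.1.det = 2 := h1
    rw [← this, Matrix.det_fin_two, h2]
    ring
  have h7 : 0 < h.1 1 1 := by omega
  have h8 : h.1 0 0 ≤ 2 := by nlinarith
  have h9 : h.1 = !![h.1 0 0, h.1 0 1; 0, h.1 1 1] := by
    ext i j
    fin_cases i <;> fin_cases j <;> simp [h2]
  obtain h10 | h10 : h.1 0 0 = 1 ∨ h.1 0 0 = 2 := by omega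
  · have h11 : h.1 1 1 = 2 := by
      rw [h10] at h6
      linarith
    obtain h12 | h12 : h.1 0 1 = 0 ∨ h.1 0 1 = 1 := by omega
    · right; left
      rw [h10, h11, h12] at h9
      have : h = m2 := Subtype.ext h9
      rw [this]
      rfl
    · right; right
      rw [h10, h11, h12] at h9
      have : h = m3 := Subtype.ext h9
      rw [this]
      rfl
  · have h11 : h.1 1 1 = 1 := by
      rw [h10] at h6
      linarith
    have h12 : h.1 0 1 = 0 := by omega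
    left
    rw [h10, h11, h12] at h9
    have : h = m1 := Subtype.ext h9
    rw [this]
    rfl

theorem m1_low : m1.1 1 0 = 0 := rfl
theorem m2_low : m2.1 1 0 = 0 := rfl
theorem m3_low : m3.1 1 0 = 0 := rfl

theorem qq_m1 (τ : ℍ) : qq (act m1 τ) = qq τ ^ 2 := by
  rw [qq_eq, qq_eq, ← Complex.exp_nat_mul, coe_act]
  congr 1
  simp [m1]
  ring

theorem qq_m2 (τ : ℍ) : qq (act m2 τ) ^ 2 = qq τ := by
  rw [qq_eq, qq_eq, ← Complex.exp_nat_mul, coe_act]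
  congr 1
  simp [m2]
  ring

theorem qq_m3 (τ : ℍ) : qq (act m3 τ) = - qq (act m2 τ) := by
  rw [qq_eq, qq_eq, coe_act, coe_act]
  have : (2 * Real.pi * Complex.I * (((m3.1 0 0 : ℂ) * τ + (m3.1 0 1 : ℂ)) /
      ((m3.1 1 0 : ℂ) * τ + (m3.1 1 1 : ℂ)))) = 2 * Real.pi * Complex.I *
      (((m2.1 0 0 : ℂ) * τ + (m2.1 0 1 : ℂ)) / ((m2.1 1 0 : ℂ) * τ + (m2.1 1 1 : ℂ))) +
        Real.pi * Complex.I := by
    simp [m3, m2]
    ring
  rw [this, Complex.exp_add, Complex.exp_pi_mul_I]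
  ring

theorem tendsto_qq : Tendsto (fun τ : ℍ => qq τ) atImInfty (𝓝 0) := by
  rw [tendsto_zero_iff_norm_tendsto_zero]
  have h6 : (fun τ : ℍ => ‖qq τ‖) = fun τ : ℍ => Real.exp (-(2 * Real.pi * τ.im)) := by
    funext τ
    rw [norm_qq]
    congr 1
    ring
  rw [h6]
  apply Real.tendsto_exp_neg_atTop_nhds_zero.comp
  exact Tendsto.const_mul_atTop (by have := Real.pi_pos; positivity) tendsto_comap

theorem tendsto_f1 : Tendsto (fun τ => f1 τ * ModularForm.discriminant τ ^ 2) atImInfty (𝓝 1) := by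
  have h1 := (tendsto_jf_act m1_low).mul (tendsto_disc.pow 2)
  rw [one_pow, mul_one] at h1
  refine h1.congr fun τ => ?_
  rw [qq_m1]
  unfold f1
  have := qq_ne_zero τ
  field_simp

theorem tendsto_f23 {m : PD} (h0 : m.1 1 0 = 0) (h : ∀ τ, qq (act m τ) ^ 2 = qq τ) :
    Tendsto (fun τ => jf (act m τ) * ModularForm.discriminant τ ^ 2) atImInfty (𝓝 0) := by
  have h1 := ((tendsto_jf_act h0).mul (tendsto_disc.pow 2)).mul
    ((tendsto_qq.comp (tendsto_act_upper h0)).pow 3)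
  rw [one_pow, mul_one, zero_pow (by norm_num), mul_zero] at h1
  refine h1.congr fun τ => ?_
  have e1 := h τ
  have := qq_ne_zero (act m τ)
  simp only [Function.comp_apply]
  rw [← e1]
  field_simp

theorem f1_ne_f2 : f1 ≠ f2 := by
  intro h
  have h1 := tendsto_f1
  rw [h] at h1
  exact one_ne_zero (tendsto_nhds_unique h1 (tendsto_f23 m2_low qq_m2))

theorem qq_m3' (τ : ℍ) : qq (act m3 τ) ^ 2 = qq τ := by
  rw [qq_m3, neg_sq, qq_m2]

theorem f1_ne_f3 : f1 ≠ f3 := by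
  intro h
  have h1 := tendsto_f1
  rw [h] at h1
  exact one_ne_zero (tendsto_nhds_unique h1 (tendsto_f23 m3_low qq_m3'))

theorem f2_ne_f3 : f2 ≠ f3 := by
  intro h
  have h1 := tendsto_jf_act m3_low
  have h2 : Tendsto (fun τ : ℍ => -(jf (act m2 τ) * qq (act m2 τ))) atImInfty (𝓝 1) := by
    refine h1.congr fun τ => ?_
    rw [qq_m3]
    have : jf (act m3 τ) = jf (act m2 τ) := (congrFun h τ).symm
    rw [this]
    ring
  have h3 := (tendsto_jf_act m2_low).neg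
  have h4 := tendsto_nhds_unique h2 h3
  have h5 : (1 : ℂ) + 1 = 0 := by
    nth_rewrite 1 [h4]
    ring
  norm_num at h5

open Classical in
theorem SN_two : SN 2 = {f1, f2, f3} := by
  ext f
  rw [mem_SN]
  simp only [Finset.mem_insert, Finset.mem_singleton]
  constructor
  · exact FN_two
  · rintro (rfl | rfl | rfl)
    · exact f1_mem
    · exact f2_mem
    · exact f3_mem

theorem exists_sum : ∃ α β : ℂ, ∀ τ, f1 τ + f2 τ + f3 τ = jf τ ^ 2 + α * jf τ + β := by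
  classical
  have hs : ∀ τ, f1 τ + f2 τ + f3 τ = ∑ f ∈ SN 2, f τ := by
    intro τ
    rw [SN_two, Finset.sum_insert (by simp [f1_ne_f2, f1_ne_f3]),
      Finset.sum_insert (by simpa using f2_ne_f3), Finset.sum_singleton]
    ring
  have hm : MDiff (fun τ => f1 τ + f2 τ + f3 τ) :=
    ((FN_mdiff f1_mem).add (FN_mdiff f2_mem)).add (FN_mdiff f3_mem)
  have hinv : ∀ (γ : SL(2, ℤ)) (τ : ℍ), (fun τ => f1 τ + f2 τ + f3 τ) (γ • τ) =
      (fun τ => f1 τ + f2 τ + f3 τ) τ := by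
    intro γ τ
    simp only
    rw [hs, hs]
    have h1 := prod_SN_smul (R := Multiplicative ℂ) 2 (fun z => Multiplicative.ofAdd z) γ τ
    rw [← ofAdd_sum, ← ofAdd_sum] at h1
    exact Multiplicative.ofAdd.injective h1
  have hlim : Tendsto (fun τ => (fun τ => f1 τ + f2 τ + f3 τ) τ * ModularForm.discriminant τ ^ 2)
      atImInfty (𝓝 1) := by
    have h1 := (tendsto_f1.add (tendsto_f23 m2_low qq_m2)).add (tendsto_f23 m3_low qq_m3')
    rw [add_zero, add_zero] at h1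
    refine h1.congr fun τ => ?_
    unfold f2 f3
    ring
  obtain ⟨P, hP1, hP2, hP3⟩ := exists_poly hm hinv 2 (hlim.isBigO_one ℝ)
  refine ⟨P.coeff 1, P.coeff 0, fun τ => ?_⟩
  have h1 := hP2 τ
  rw [Polynomial.eval_eq_sum_range' (n := 3) (by omega)] at h1
  rw [Finset.sum_range_succ, Finset.sum_range_succ, Finset.sum_range_succ, Finset.sum_range_zero,
    hP3 1 hlim] at h1
  rw [h1]
  ring

theorem three_sum {u1 u2 u3 y1 y2 y3 : ℂ} (h1 : y1 = u1 ∨ y1 = u2 ∨ y1 = u3)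
    (h2 : y2 = u1 ∨ y2 = u2 ∨ y2 = u3) (h3 : y3 = u1 ∨ y3 = u2 ∨ y3 = u3)
    (h12 : y1 ≠ y2) (h13 : y1 ≠ y3) (h23 : y2 ≠ y3) : y1 + y2 + y3 = u1 + u2 + u3 := by
  rcases h1 with e1 | e1 | e1 <;> rcases h2 with e2 | e2 | e2 <;>
    rcases h3 with e3 | e3 | e3 <;>
    first
      | exact absurd (e1.trans e2.symm) h12
      | exact absurd (e1.trans e3.symm) h13
      | exact absurd (e2.trans e3.symm) h23
      | linear_combination e1 + e2 + e3

theorem mrel_two_sum : ∃ α β : ℂ, ∀ x y1 y2 y3, MRel 2 x y1 → MRel 2 x y2 → MRel 2 x y3 →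
    y1 ≠ y2 → y1 ≠ y3 → y2 ≠ y3 → y1 + y2 + y3 = x ^ 2 + α * x + β := by
  obtain ⟨α, β, h⟩ := exists_sum
  refine ⟨α, β, ?_⟩
  intro x y1 y2 y3 h1 h2 h3 h12 h13 h23
  obtain ⟨τ, rfl⟩ := jf_surj x
  have key : ∀ y, MRel 2 (jf τ) y → y = f1 τ ∨ y = f2 τ ∨ y = f3 τ := by
    intro y hy
    obtain ⟨f, hf, h4⟩ := (mrel_jf two_pos y τ).mp (mrel_symm two_pos hy)
    rcases FN_two hf with rfl | rfl | rfl
    · exact Or.inl h4
    · exact Or.inr (Or.inl h4)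
    · exact Or.inr (Or.inr h4)
  rw [← h τ]
  exact three_sum (key y1 h1) (key y2 h2) (key y3 h3) h12 h13 h23

theorem mrel_two_three : {x : ℂ | ¬ ∃ y1 y2 y3, MRel 2 x y1 ∧ MRel 2 x y2 ∧ MRel 2 x y3 ∧
    y1 ≠ y2 ∧ y1 ≠ y3 ∧ y2 ≠ y3}.Finite := by
  classical
  let D : (ℍ → ℂ) := ∏ p ∈ (SN 2).offDiag, (p.1 - p.2)
  have hD0 : D ∈ HR := by
    apply Subring.prod_mem
    intro p hp
    rw [Finset.mem_offDiag] at hp
    exact Subring.sub_mem _ (FN_HR (mem_SN.mp hp.1)) (FN_HR (mem_SN.mp hp.2.1))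
  obtain ⟨hD1, m, hD2⟩ := mem_HR.mp hD0
  have hDinv : ∀ (γ : SL(2, ℤ)) (τ : ℍ), D (γ • τ) = D τ := by
    intro γ τ
    simp only [D, Finset.prod_apply, Pi.sub_apply]
    refine Finset.prod_bij'
      (i := fun p _ => ((fun τ => p.1 (γ • τ) : ℍ → ℂ), (fun τ => p.2 (γ • τ) : ℍ → ℂ)))
      (j := fun p _ => ((fun τ => p.1 (γ⁻¹ • τ) : ℍ → ℂ), (fun τ => p.2 (γ⁻¹ • τ) : ℍ → ℂ)))
      ?_ ?_ ?_ ?_ ?_
    · intro p hp
      rw [Finset.mem_offDiag] at hp ⊢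
      refine ⟨mem_SN.mpr (FN_smul (mem_SN.mp hp.1) γ), mem_SN.mpr (FN_smul (mem_SN.mp hp.2.1) γ),
        ?_⟩
      intro h
      apply hp.2.2
      funext σ
      have := congrFun h (γ⁻¹ • σ)
      simpa using this
    · intro p hp
      rw [Finset.mem_offDiag] at hp ⊢
      refine ⟨mem_SN.mpr (FN_smul (mem_SN.mp hp.1) γ⁻¹),
        mem_SN.mpr (FN_smul (mem_SN.mp hp.2.1) γ⁻¹), ?_⟩
      intro h
      apply hp.2.2
      funext σ
      have := congrFun h (γ • σ)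
      simpa using this
    · intro p _
      simp
    · intro p _
      simp
    · intro p _
      rfl
  obtain ⟨R, _, hR, _⟩ := exists_poly hD1 hDinv m hD2
  have hR0 : R ≠ 0 := by
    rintro rfl
    have h1 : D = 0 := by
      funext τ
      rw [hR, Polynomial.eval_zero]
      rfl
    rw [UpperHalfPlane.prod_eq_zero_iff] at h1
    · obtain ⟨p, hp, h2⟩ := h1
      rw [Finset.mem_offDiag] at hp
      exact hp.2.2 (sub_eq_zero.mp h2)
    · intro p hp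
      rw [Finset.mem_offDiag] at hp
      exact (FN_mdiff (mem_SN.mp hp.1)).sub (FN_mdiff (mem_SN.mp hp.2.1))
  apply (R.rootSet_finite ℂ).subset
  intro x hx
  rw [Polynomial.mem_rootSet]
  refine ⟨hR0, ?_⟩
  rw [Polynomial.coe_aeval_eq_eval]
  obtain ⟨τ, rfl⟩ := jf_surj x
  rw [← hR]
  by_contra hne
  apply hx
  have h1 : ∀ p ∈ (SN 2).offDiag, p.1 τ ≠ p.2 τ := by
    intro p hp h2
    apply hne
    simp only [D, Finset.prod_apply, Pi.sub_apply]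
    exact Finset.prod_eq_zero hp (sub_eq_zero.mpr h2)
  have hm : ∀ f ∈ FN 2, MRel 2 (jf τ) (f τ) := fun f hf =>
    mrel_symm two_pos ((mrel_jf two_pos _ τ).mpr ⟨f, hf, rfl⟩)
  refine ⟨f1 τ, f2 τ, f3 τ, hm _ f1_mem, hm _ f2_mem, hm _ f3_mem, ?_, ?_, ?_⟩
  · exact h1 (f1, f2) (Finset.mem_offDiag.mpr ⟨mem_SN.mpr f1_mem, mem_SN.mpr f2_mem, f1_ne_f2⟩)
  · exact h1 (f1, f3) (Finset.mem_offDiag.mpr ⟨mem_SN.mpr f1_mem, mem_SN.mpr f3_mem, f1_ne_f3⟩)
  · exact h1 (f2, f3) (Finset.mem_offDiag.mpr ⟨mem_SN.mpr f2_mem, mem_SN.mpr f3_mem, f2_ne_f3⟩)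

end Two

end Pool.Agent.MP_dd1803_nt
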