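import Mathlib
import Pool.Agent.MP_dd1803_nt.Y.Geom
import Pool.Agent.MP_dd1803_nt.Y.Two
import Pool.Agent.MP_dd1803_nt.Y.RatQ
import Pool.Agent.MP_dd1803_nt.Aff.Interface

namespace Pool.Agent.MP_dd1803_nt

/-- The modular relations form a special structure. -/
noncomputable instance modStr : Aff.SpStr ℂ where
  rel := MRel
  one := mrel_one
  poly _ hN := mrel_poly hN
  defd _ hN := mrel_defd hN
  fin_left _ hN x := mrel_fin hN x
  fin_diag _ hN := mrel_fin_diag hN
  symm _ hN _ _ h := mrel_symm hN h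
  trans _ _ hN hM := mrel_trans hN hM
  cm _ _ hN hM h := mrel_cm hN hM h
  cm_trans _ _ hN hM _ _ h h' := mrel_cm_trans hN hM h h'
  geom := mrel_geom
  graph _ hN p h := mrel_graph hN p h
  two_sum := mrel_two_sum
  two_three := mrel_two_three
  sp_zero := sp_zero'
  sp_ne := sp_ne'

end Pool.Agent.MP_dd1803_nt
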