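import Mathlib
import Pool.Agent.MP_dd1803_nt.Aff.Defs
import Pool.Agent.MP_dd1803_nt.Y.JDef

namespace Pool.Agent.MP_dd1803_nt

open Aff (ZClosed Irr Comp dm)

variable {κ : Type}

/-- The subset of `Y(1)^κ = ℂ^κ` cut out by the finitely many equations `Φ_N(x_i, x_k) = 0` with
`(N, i, k)` in `L`. -/
def YCut (L : Finset (ℕ × κ × κ)) : Set (κ → ℂ) := {x | ∀ l ∈ L, MRel l.1 (x l.2.1) (x l.2.2)}

/-- Special subvarieties of `Y(1)^κ`: the irreducible components of the subsets cut out by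
finitely many equations `Φ_N(x_i, x_k) = 0` with `N ≥ 1`. -/
def YSpecial (T : Set (κ → ℂ)) : Prop :=
  ∃ L : Finset (ℕ × κ × κ), (∀ l ∈ L, 1 ≤ l.1) ∧ Comp (YCut L) T

/-- Atypical subvarieties of `V`: irreducible components `X` of the intersection of `V` with a
special subvariety `T` such that `dim V + dim T < dim X + dim Y(1)^κ`. -/
def YAtypical (V X : Set (κ → ℂ)) : Prop :=
  ∃ T, YSpecial T ∧ Comp (V ∩ T) X ∧ dm V + dm T < dm X + dm (Set.univ : Set (κ → ℂ))

/-- The Zilber-Pink property of `V`: it has only finitely many maximal atypical subvarieties. -/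
def YZP (V : Set (κ → ℂ)) : Prop := {X | Maximal (YAtypical V) X}.Finite

/-- The `k`-th power of the plane `x + y = z` in `Y(1)^3`, a subset of `Y(1)^(3k)`. -/
def YPlane (k : ℕ) : Set (Fin k × Fin 3 → ℂ) := {x | ∀ i, x (i, 0) + x (i, 1) = x (i, 2)}

end Pool.Agent.MP_dd1803_nt
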