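import Mathlib
import Pool.Agent.MP_dd1803_nt.Y.YDefs
import Pool.Agent.MP_dd1803_nt.Y.Inst

namespace Pool.Agent.MP_dd1803_nt

theorem yspecial_iff {κ : Type} (T : Set (κ → ℂ)) : YSpecial T ↔ Aff.Special T := Iff.rfl

theorem yatypical_iff {κ : Type} (V X : Set (κ → ℂ)) : YAtypical V X ↔ Aff.Atypical V X := Iff.rfl

theorem yzp_iff {κ : Type} (V : Set (κ → ℂ)) : YZP V ↔ Aff.ZP V := Iff.rfl

theorem yplane_eq (k : ℕ) : YPlane k = Aff.AA ℂ k := rfl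

theorem yzp_iff_plane : (∀ k : ℕ, YZP (YPlane k)) ↔
    ∀ (κ : Type) [Finite κ] (V : Set (κ → ℂ)), Aff.ZClosed V → YZP V := by
  have h := Aff.zp_iff_plane (F := ℂ)
  exact h

end Pool.Agent.MP_dd1803_nt
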